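import Mathlib
import Pool.Agent.H627.LP.Glo

/-!
Interpolation determinants for maps with good reduction, with exceptional points.
-/

set_option autoImplicit false
set_option linter.unusedSectionVars false

namespace Pool.Agent.H627.LR

open NumberField Module MvPolynomial
open Pool.Agent.W238.Leh
open Pool.Agent.H627.LP

noncomputable section

section Local

variable {K : Type} [Field K] [NumberField K] {M : Type} [Field M] [NumberField M] [Algebra K M]
  {N : ℕ} {F : Fin (N + 1) → MvPolynomial (Fin (N + 1)) K} {q : ℕ} {v : FinitePlace M}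

/-- good reduction at a place of an extension -/
structure GR (v : FinitePlace M) (F : Fin (N + 1) → MvPolynomial (Fin (N + 1)) K) (q : ℕ) :
    Prop where
  int : ∀ i, IntP v (map (algebraMap K M) (F i))
  nm : ∀ x : Fin (N + 1) → M, nmf v (act F x) = nmf v x ^ q

lemma GR.wt_eq (h : GR v F q) (l : List ℕ) (x : Fin (N + 1) → M) :
    wt (nmf v) (act F) l x = nmf v x ^ ldeg q l := by
  induction l generalizing x with
  | nil => simp [wt, ldeg]
  | cons r l ih => rw [wt, ldeg, ih, h.nm, pow_add, pow_mul]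

variable {ι : Type*} [Fintype ι] [DecidableEq ι]

/-- **the local gain** -/
theorem local_gain (hR : GR v F q) (hF : ∀ i, (F i).IsHomogeneous q) (l : List ℕ)
    (Φ : ι → MvPolynomial (Fin (N + 1)) K) (hΦ : ∀ j, Φ j ∈ GG F l) (p : ι → Fin (N + 1) → M)
    (hp : ∀ i, p i ≠ 0) (E : Finset ι) (c : ι → ι) {η : ℝ} (hη : 0 < η) (hη1 : η < 1)
    (hnear : ∀ i, i ∉ E → Near v η (p i) (p (c i))) {t : ℕ}
    (ht : ((Finset.univ \ E).image c).card ≤ t) (s : ℕ) :
    v (Matrix.of fun i j => aeval (p i) (Φ j)).det ≤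
      (∏ i, nmf v (p i) ^ ldeg q l) *
        (η ^ s) ^ (Fintype.card ι - (E.card + t * s ^ N)) := by
  classical
  obtain ⟨c', hc'1, hc'2⟩ : ∃ c' : ι → ι, (∀ i ∈ E, c' i = i) ∧ ∀ i, i ∉ E → c' i = c i :=
    ⟨fun i => if i ∈ E then i else c i, fun i hi => if_pos hi, fun i hi => if_neg hi⟩
  have hnear' : ∀ i, Near v η (p i) (p (c' i)) := by
    intro i
    by_cases hi : i ∈ E
    · rw [hc'1 i hi]
      intro s t
      have : p i s * p i t - p i t * p i s = 0 := by ring
      rw [this, map_zero]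
      exact mul_nonneg hη.le (mul_nonneg (nmf_nonneg v _) (nmf_nonneg v _))
    · rw [hc'2 i hi]
      exact hnear i hi
  set m := ldeg q l with hm
  choose a ha using fun i => exists_nmf (v := v) (p i)
  -- normalised vectors
  have hpa : ∀ i, v (p i (a (c' i))) = nmf v (p i) := fun i =>
    (hnear' i).coord hη1 (hp i) (hp (c' i)) (ha (c' i))
  have hpa0 : ∀ i, p i (a (c' i)) ≠ 0 := by
    intro i h0
    have h1 := hpa i
    rw [h0, map_zero] at h1
    have := nmf_pos v (hp i)
    linarith
  have hca0 : ∀ i, p i (a i) ≠ 0 := by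
    intro i h0
    have h1 := ha i
    rw [h0, map_zero] at h1
    have := nmf_pos v (hp i)
    linarith
  set u : ι → Fin (N + 1) → M := fun i => (p i (a i))⁻¹ • p i with hu
  set z : ι → Fin (N + 1) → M := fun i => (p i (a (c' i)))⁻¹ • p i with hz
  have hui : ∀ i t, v (u i t) ≤ 1 := by
    intro i t
    simp only [hu, Pi.smul_apply, smul_eq_mul, map_mul, map_inv₀, ha]
    have := nmf_pos v (hp i)
    rw [inv_mul_le_iff₀ this, mul_one]
    exact le_nmf v _ _
  set δ : ι → Fin (N + 1) → M := fun i => z i - u (c' i) with hδ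
  have hδ0 : ∀ i, δ i (a (c' i)) = 0 := by
    intro i
    simp only [hδ, hz, hu, Pi.sub_apply, Pi.smul_apply, smul_eq_mul]
    rw [inv_mul_cancel₀ (hpa0 i), inv_mul_cancel₀ (hca0 (c' i)), sub_self]
  have hδE : ∀ i ∈ E, ∀ t, δ i t = 0 := by
    intro i hi t
    simp only [hδ, hz, hu, Pi.sub_apply, Pi.smul_apply, smul_eq_mul]
    rw [hc'1 i hi, sub_self]
  have hδv : ∀ i t, v (δ i t) ≤ η := by
    intro i t
    have h1 : δ i t = (p i t * p (c' i) (a (c' i)) - p i (a (c' i)) * p (c' i) t) *
        ((p i (a (c' i)))⁻¹ * (p (c' i) (a (c' i)))⁻¹) := by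
      simp only [hδ, hz, hu, Pi.sub_apply, Pi.smul_apply, smul_eq_mul]
      have h2 := hpa0 i
      have h3 := hca0 (c' i)
      field_simp
    rw [h1, map_mul, map_mul, map_inv₀, map_inv₀, hpa, ha]
    have h2 := nmf_pos v (hp i)
    have h3 := nmf_pos v (hp (c' i))
    have h4 := hnear' i t (a (c' i))
    rw [← mul_inv, ← div_eq_mul_inv, div_le_iff₀ (mul_pos h2 h3)]
    exact h4
  -- the expansions
  set ψ : ι → ι → MvPolynomial (Fin (N + 1)) M := fun b j =>
    bind₁ (fun t => C (u b t) + X t) (map (algebraMap K M) (Φ j)) with hψ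
  have hψint : ∀ b j, IntP v (ψ b j) := by
    intro b j
    refine IntP.bind (fun t => (IntP.const (hui b t)).add (IntP.var t)) ?_
    exact GG_intP hR.int l (hΦ j)
  have hψev : ∀ i j, eval (δ i) (ψ (c' i) j) = aeval (z i) (Φ j) := by
    intro i j
    have h1 : eval (δ i) (ψ (c' i) j) =
        eval (fun t => eval (δ i) (C (u (c' i) t) + X t)) (map (algebraMap K M) (Φ j)) := by
      simp only [hψ]
      exact eval₂Hom_bind₁ _ _ _ _
    rw [h1, eval_map, aeval_def]
    congr 1
    funext t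
    rw [map_add, eval_C, eval_X]
    simp only [hδ, Pi.sub_apply]
    ring
  set X' : Matrix ι ι M := Matrix.of fun i j =>
    ∑ α ∈ box s (a (c' i)), (ψ (c' i) j).coeff α * ∏ t, δ i t ^ α t with hX'
  set W' : Matrix ι ι M := Matrix.of fun i j => aeval (z i) (Φ j) with hW'
  have hY : ∀ i j, v ((W' - X') i j) ≤ η ^ s := by
    intro i j
    have h1 : (W' - X') i j = eval (δ i) (ψ (c' i) j) -
        ∑ α ∈ box s (a (c' i)), (ψ (c' i) j).coeff α * ∏ t, δ i t ^ α t := by
      rw [hψev]
      rfl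
    rw [h1]
    exact expand (hψint _ _) hη.le hη1.le (hδ0 i) (hδv i) s
  have hX1 : ∀ i j, v (X' i j) ≤ 1 := by
    intro i j
    simp only [hX', Matrix.of_apply]
    refine v_sum_le v _ _ zero_le_one fun α _ => ?_
    rw [map_mul, map_prod]
    refine mul_le_one₀ (hψint _ _ _) (Finset.prod_nonneg fun i _ => v_nonneg v _) ?_
    refine Finset.prod_le_one (fun i _ => v_nonneg v _) fun t _ => ?_
    rw [map_pow]
    exact pow_le_one₀ (v_nonneg v _) ((hδv i t).trans hη1.le)
  -- the rank
  set U : Finset (ι → M) := (E.image fun b => fun j => (ψ b j).coeff 0) ∪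
    (((Finset.univ \ E).image c).biUnion fun b => (box s (a b)).image fun α => fun j =>
      (ψ b j).coeff α) with hU
  set S : Submodule M (ι → M) := Submodule.span M (U : Set (ι → M)) with hS
  have hSr : finrank M S ≤ E.card + t * s ^ N := by
    refine (finrank_span_finset_le_card _).trans ?_
    refine (Finset.card_union_le _ _).trans (Nat.add_le_add Finset.card_image_le ?_)
    refine Finset.card_biUnion_le.trans ?_
    calc ∑ b ∈ (Finset.univ \ E).image c, ((box s (a b)).image fun α => fun j =>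
          (ψ b j).coeff α).card ≤ ∑ b ∈ (Finset.univ \ E).image c, s ^ N := by
          refine Finset.sum_le_sum fun b _ => ?_
          exact Finset.card_image_le.trans (card_box s (a b)).le
      _ = ((Finset.univ \ E).image c).card * s ^ N := by rw [Finset.sum_const, smul_eq_mul]
      _ ≤ t * s ^ N := Nat.mul_le_mul_right _ ht
  have hXS : ∀ i, X' i ∈ S := by
    intro i
    have h1 : X' i = ∑ α ∈ box s (a (c' i)), (∏ t, δ i t ^ α t) •
        fun j => (ψ (c' i) j).coeff α := by
      funext j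
      rw [Finset.sum_apply]
      simp only [hX', Matrix.of_apply, Pi.smul_apply, smul_eq_mul]
      exact Finset.sum_congr rfl fun α _ => mul_comm _ _
    rw [h1]
    refine Submodule.sum_mem _ fun α hα => ?_
    by_cases hi : i ∈ E
    · by_cases hα0 : α = 0
      · refine Submodule.smul_mem _ _ (Submodule.subset_span ?_)
        rw [Finset.mem_coe, hU, Finset.mem_union]
        left
        rw [hα0, hc'1 i hi]
        exact Finset.mem_image_of_mem _ hi
      · obtain ⟨t₀, ht₀⟩ : ∃ t₀, α t₀ ≠ 0 := by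
          by_contra hcon
          push Not at hcon
          exact hα0 (Finsupp.ext hcon)
        have h2 : ∏ t, δ i t ^ α t = 0 := by
          apply Finset.prod_eq_zero (Finset.mem_univ t₀)
          rw [hδE i hi, zero_pow ht₀]
        rw [h2, zero_smul]
        exact Submodule.zero_mem _
    · refine Submodule.smul_mem _ _ (Submodule.subset_span ?_)
      rw [Finset.mem_coe, hU, Finset.mem_union, Finset.mem_biUnion]
      right
      rw [hc'2 i hi] at hα ⊢
      refine ⟨c i, Finset.mem_image_of_mem _ ?_, Finset.mem_image_of_mem _ hα⟩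
      rw [Finset.mem_sdiff]
      exact ⟨Finset.mem_univ i, hi⟩
  have h1 := det_rank_le v X' (W' - X') (pow_nonneg hη.le s) (pow_le_one₀ hη.le hη1.le) hX1 hY S
    hSr hXS
  rw [add_sub_cancel] at h1
  -- scaling
  have h2 : (Matrix.of fun i j => aeval (p i) (Φ j)) =
      Matrix.diagonal (fun i => p i (a (c' i)) ^ m) * W' := by
    ext i j
    rw [Matrix.diagonal_mul]
    simp only [Matrix.of_apply, hW']
    have h3 : p i = p i (a (c' i)) • z i := by
      simp only [hz]
      rw [smul_smul, mul_inv_cancel₀ (hpa0 i), one_smul]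
    conv_lhs => rw [h3]
    exact aeval_smul_hom (GG_hom hF l (hΦ j)) _ _
  rw [h2, Matrix.det_mul, Matrix.det_diagonal, map_mul, map_prod]
  have h3 : ∏ i, v (p i (a (c' i)) ^ m) = ∏ i, nmf v (p i) ^ m :=
    Finset.prod_congr rfl fun i _ => by rw [map_pow, hpa]
  rw [h3]
  refine mul_le_mul_of_nonneg_left h1 (Finset.prod_nonneg fun i _ => ?_)
  exact pow_nonneg (nmf_nonneg v _) _

end Local

section Main

variable {K : Type} [Field K] [NumberField K] {M : Type} [Field M] [NumberField M] [Algebra K M]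
  {N : ℕ} {ι : Type} [Fintype ι] [DecidableEq ι]
variable {F : Fin (N + 1) → MvPolynomial (Fin (N + 1)) K} {q c a : ℕ} {A : ℝ}

/-- **the inequality** -/
theorem det_ineq (hB : Bds F q A a) (hF : ∀ i, (F i).IsHomogeneous q)
    (hc : ∀ m, c + q ≤ m → ∀ p : MvPolynomial (Fin (N + 1)) K, p.IsHomogeneous m →
      p ∈ Ideal.span (Set.range F)) {p : ι → Fin (N + 1) → M} (hp : ∀ i, p i ≠ 0)
    (hne : ∀ i j, i ≠ j → ∀ b : M, p i ≠ b • p j) (l : List ℕ) (hl : LOK c l)
    (hlc : Fintype.card ι ≤ ldeg q l + 1) (T : Finset (FinitePlace M))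
    (hT : ∀ v ∈ T, GR v F q) (g : FinitePlace M → ℝ) (hg : ∀ v ∈ T, 0 < g v)
    (E : FinitePlace M → Finset ι)
    {t : ℕ} (hnear : ∀ v ∈ T, ∃ cc : ι → ι, ((Finset.univ \ E v).image cc).card ≤ t ∧
      ∀ i, i ∉ E v → Near v (Real.exp (-g v)) (p i) (p (cc i))) (s : ℕ) :
    ∑ v ∈ T, g v * (s * (Fintype.card ι - ((E v).card + t * s ^ N) : ℕ)) ≤
      ∑ i, HL F l (p i) + finrank ℚ M * Real.log (Fintype.card ι).factorial := by
  obtain ⟨Φ, hΦ, hdet⟩ := exists_forms hF hc hp hne l hl hlc
  set W := (Matrix.of fun i j => aeval (p i) (Φ j)) with hW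
  have hiter : ∀ i j, (act F)^[j] (p i) ≠ 0 := fun i j => hB.iter_ne_zero (hp i) j
  have hwtpos : ∀ (w : InfinitePlace M) i, 0 < wt (nmi w) (act F) l (p i) :=
    fun w i => wt_pos l fun j => nmi_pos w (hiter _ j)
  have hwtposf : ∀ (v : FinitePlace M) i, 0 < wt (nmf v) (act F) l (p i) :=
    fun v i => wt_pos l fun j => nmf_pos v (hiter _ j)
  have hinf : ∀ w : InfinitePlace M, Real.log (w W.det) ≤
      ∑ i, Real.log (wt (nmi w) (act F) l (p i)) + Real.log (Fintype.card ι).factorial := by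
    intro w
    have h1 : w W.det ≤ (Fintype.card ι).factorial * ∏ i, wt (nmi w) (act F) l (p i) := by
      apply det_rows_le_inf
      intro i j
      exact abs_le_wt (w.1.toMonoidWithZeroHom) (fun x => w.1.nonneg x)
        (fun x j => le_nmi w x j) (fun x => nmi_nonneg w x) l (hΦ j) (p i)
    have h2 : 0 < w W.det := InfinitePlace.pos_iff.mpr hdet
    have h3 := Real.log_le_log h2 h1
    have h4 : (0 : ℝ) < ((Fintype.card ι).factorial : ℝ) := by
      exact_mod_cast Nat.factorial_pos _
    rw [Real.log_mul h4.ne' (Finset.prod_pos fun k _ => hwtpos w k).ne',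
      Real.log_prod (fun k _ => (hwtpos w k).ne')] at h3
    linarith
  have hfin : ∀ v : FinitePlace M, Real.log (v W.det) ≤
      ∑ i, Real.log (wt (nmf v) (act F) l (p i)) := by
    intro v
    have h1 : v W.det ≤ ∏ i, wt (nmf v) (act F) l (p i) := by
      apply det_rows_le v _ _ (fun k => (hwtposf v k).le)
      intro i j
      exact abs_le_wt (v.1.toMonoidWithZeroHom) (fun x => v.1.nonneg x)
        (fun x j => le_nmf v x j) (fun x => nmf_nonneg v x) l (hΦ j) (p i)
    have h2 : 0 < v W.det := FinitePlace.pos_iff.mpr hdet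
    have h3 := Real.log_le_log h2 h1
    rwa [Real.log_prod (fun k _ => (hwtposf v k).ne')] at h3
  have hfinT : ∀ v ∈ T, Real.log (v W.det) ≤
      ∑ i, Real.log (wt (nmf v) (act F) l (p i)) -
        g v * (s * (Fintype.card ι - ((E v).card + t * s ^ N) : ℕ)) := by
    intro v hv
    have hR := hT v hv
    obtain ⟨cc, hcc, hcc'⟩ := hnear v hv
    have hgv := hg v hv
    have h1 := local_gain hR hF l Φ hΦ p hp (E v) cc (Real.exp_pos (-g v))
      (by rw [Real.exp_lt_one_iff]; linarith) hcc' hcc s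
    rw [← hW] at h1
    have h2 : 0 < v W.det := FinitePlace.pos_iff.mpr hdet
    have h3 := Real.log_le_log h2 h1
    have h4 : ∏ i, nmf v (p i) ^ ldeg q l = ∏ i, wt (nmf v) (act F) l (p i) :=
      Finset.prod_congr rfl fun i _ => (hR.wt_eq l (p i)).symm
    rw [h4, Real.log_mul (Finset.prod_pos fun i _ => hwtposf v i).ne'
      (pow_pos (pow_pos (Real.exp_pos _) _) _).ne',
      Real.log_prod (fun k _ => (hwtposf v k).ne'), Real.log_pow, Real.log_pow, Real.log_exp]
      at h3
    refine h3.trans (le_of_eq ?_)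
    ring
  have hgs1 : HasGS (fun w => ∑ i, Real.log (wt (nmi w) (act F) l (p i)))
      (fun v => ∑ i, Real.log (wt (nmf v) (act F) l (p i))) (∑ i, HL F l (p i)) :=
    HasGS.sum Finset.univ fun k _ => HasGS.wt l (hiter k)
  have hmain := HasGS_le_gain (HasGS.prod hdet) hgs1
    (c := Real.log (Fintype.card ι).factorial) hinf T
    (fun v => g v * (s * (Fintype.card ι - ((E v).card + t * s ^ N) : ℕ)))
    (fun v _ => hfin v) hfinT
  linarith

/-- the inequality in terms of canonical heights -/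
theorem det_ineq' (hB : Bds F q A a) (hq : 2 ≤ q) (hF : ∀ i, (F i).IsHomogeneous q)
    (hc : ∀ m, c + q ≤ m → ∀ p : MvPolynomial (Fin (N + 1)) K, p.IsHomogeneous m →
      p ∈ Ideal.span (Set.range F)) {p : ι → Fin (N + 1) → M} (hp : ∀ i, p i ≠ 0)
    (hne : ∀ i j, i ≠ j → ∀ b : M, p i ≠ b • p j) (hι : 1 ≤ Fintype.card ι)
    (T : Finset (FinitePlace M))
    (hT : ∀ v ∈ T, GR v F q) (g : FinitePlace M → ℝ) (hg : ∀ v ∈ T, 0 < g v)
    (E : FinitePlace M → Finset ι)
    {t : ℕ} (hnear : ∀ v ∈ T, ∃ cc : ι → ι, ((Finset.univ \ E v).image cc).card ≤ t ∧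
      ∀ i, i ∉ E v → Near v (Real.exp (-g v)) (p i) (p (cc i))) (s : ℕ) {H : ℝ}
    (hH : ∀ i, canH F q (p i) ≤ H) :
    ∑ v ∈ T, g v * (s * (Fintype.card ι - ((E v).card + t * s ^ N) : ℕ)) ≤
      finrank ℚ M * (Fintype.card ι * (Fintype.card ι * H +
        hC A a * ((c + q : ℕ) * (1 + Nat.log 2 (Fintype.card ι) : ℕ)) +
        Real.log (Fintype.card ι))) := by
  set r := Fintype.card ι with hr
  obtain ⟨l, hl1, hl2, hl3, hl4⟩ := exists_list (c := c) hq r
  have h1 := det_ineq hB hF hc hp hne l hl2 (by omega) T hT g hg E hnear s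
  refine h1.trans ?_
  have hD := finrank_pos' (L := M)
  have hr' : (1 : ℝ) ≤ r := by exact_mod_cast hι
  have hHL : ∀ i, HL F l (p i) ≤ finrank ℚ M * (r * H +
      hC A a * ((c + q : ℕ) * (1 + Nat.log 2 r : ℕ))) := by
    intro i
    refine (hB.HL_le hq l (hp i)).trans ?_
    rw [hl1]
    have h2 : (l.sum : ℝ) ≤ (c + q : ℕ) * (1 + Nat.log 2 r : ℕ) := by
      have h3 : l.sum ≤ l.length * (c + q) := by
        have := List.sum_le_card_nsmul l (c + q) hl3
        simpa using this
      have h4 : l.length * (c + q) ≤ (c + q) * (1 + Nat.log 2 r) := by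
        rw [mul_comm]
        exact Nat.mul_le_mul_left _ hl4
      exact_mod_cast h3.trans h4
    have h3 : (r : ℝ) * canH F q (p i) ≤ r * H :=
      mul_le_mul_of_nonneg_left (hH i) (by linarith)
    have h4 : hC A a * l.sum ≤ hC A a * ((c + q : ℕ) * (1 + Nat.log 2 r : ℕ)) :=
      mul_le_mul_of_nonneg_left h2 hB.hC_nonneg
    exact mul_le_mul_of_nonneg_left (by linarith) hD.le
  have hsum : ∑ i, HL F l (p i) ≤ r * (finrank ℚ M * (r * H +
      hC A a * ((c + q : ℕ) * (1 + Nat.log 2 r : ℕ)))) := by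
    have h7 := Finset.sum_le_sum (fun k (_ : k ∈ (Finset.univ : Finset ι)) => hHL k)
    rwa [Finset.sum_const, Finset.card_univ, nsmul_eq_mul] at h7
  have hfac : Real.log r.factorial ≤ r * Real.log r := by
    have h2 : (r.factorial : ℝ) ≤ (r : ℝ) ^ r := by exact_mod_cast Nat.factorial_le_pow r
    have h3 := Real.log_le_log (by exact_mod_cast Nat.factorial_pos r) h2
    rwa [Real.log_pow] at h3
  have h5 := mul_le_mul_of_nonneg_left hfac hD.le
  calc ∑ i, HL F l (p i) + finrank ℚ M * Real.log r.factorial ≤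
      r * (finrank ℚ M * (r * H + hC A a * ((c + q : ℕ) * (1 + Nat.log 2 r : ℕ)))) +
        finrank ℚ M * (r * Real.log r) := by linarith
    _ = _ := by ring

end Main

end

end Pool.Agent.H627.LR
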