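import Mathlib
import Pool.Agent.H627.LR.Gr
import Pool.Agent.H627.LP.Cen

/-!
Rational maps with good reduction on the residue discs: the wedge of the images of two points is
a multiple of the wedge of the points.
-/

set_option autoImplicit false
set_option linter.unusedSectionVars false

namespace Pool.Agent.H627.LR

open NumberField Module MvPolynomial
open Pool.Agent.W238.Leh
open Pool.Agent.H627.LP
open Pool.Agent.H420R3 (mi nv TP ew TP_nonempty mem_TP exists_frac v_lt_one_iff v_fixed_le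
  card_inertia nv_pos v_smul)
open scoped Pointwise

noncomputable section

/-! ### the quotient polynomial -/

section Quot

/-- the divisibility -/
lemma dvd_mono {R : Type*} [CommRing R] (a b c e : R) {s₀ s₁ t₀ t₁ : ℕ}
    (h : s₀ + s₁ = t₀ + t₁) :
    (a * e - b * c) ∣ a ^ s₀ * b ^ s₁ * (c ^ t₀ * e ^ t₁) - a ^ t₀ * b ^ t₁ * (c ^ s₀ * e ^ s₁) := by
  rcases le_total t₀ s₀ with h1 | h1
  · obtain ⟨k, rfl⟩ := Nat.exists_eq_add_of_le h1
    have h2 : t₁ = s₁ + k := by omega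
    subst h2
    have h3 : a ^ (t₀ + k) * b ^ s₁ * (c ^ t₀ * e ^ (s₁ + k)) -
        a ^ t₀ * b ^ (s₁ + k) * (c ^ (t₀ + k) * e ^ s₁) =
        (a ^ t₀ * b ^ s₁ * c ^ t₀ * e ^ s₁) * ((a * e) ^ k - (b * c) ^ k) := by ring
    rw [h3]
    exact Dvd.dvd.mul_left (sub_dvd_pow_sub_pow _ _ k) _
  · obtain ⟨k, rfl⟩ := Nat.exists_eq_add_of_le h1
    have h2 : s₁ = t₁ + k := by omega
    subst h2
    have h3 : a ^ s₀ * b ^ (t₁ + k) * (c ^ (s₀ + k) * e ^ t₁) -
        a ^ (s₀ + k) * b ^ t₁ * (c ^ s₀ * e ^ (t₁ + k)) =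
        -(a ^ s₀ * b ^ t₁ * c ^ s₀ * e ^ t₁) * ((a * e) ^ k - (b * c) ^ k) := by ring
    rw [h3]
    exact Dvd.dvd.mul_left (sub_dvd_pow_sub_pow _ _ k) _

lemma exists_W (s t : Fin (1 + 1) →₀ ℕ) (h : s 0 + s 1 = t 0 + t 1) :
    ∃ W : MvPolynomial (Fin (3 + 1)) ℤ,
      X 0 ^ s 0 * X 1 ^ s 1 * (X 2 ^ t 0 * X 3 ^ t 1) -
        X 0 ^ t 0 * X 1 ^ t 1 * (X 2 ^ s 0 * X 3 ^ s 1) = (X 0 * X 3 - X 1 * X 2) * W :=
  dvd_mono (X 0 : MvPolynomial (Fin (3 + 1)) ℤ) (X 1) (X 2) (X 3) h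

open Classical in
/-- the quotient for two monomials -/
def Wq (s t : Fin (1 + 1) →₀ ℕ) : MvPolynomial (Fin (3 + 1)) ℤ :=
  if h : s 0 + s 1 = t 0 + t 1 then (exists_W s t h).choose else 0

lemma Wq_spec {s t : Fin (1 + 1) →₀ ℕ} (h : s 0 + s 1 = t 0 + t 1) :
    X 0 ^ s 0 * X 1 ^ s 1 * (X 2 ^ t 0 * X 3 ^ t 1) -
        X 0 ^ t 0 * X 1 ^ t 1 * (X 2 ^ s 0 * X 3 ^ s 1) = (X 0 * X 3 - X 1 * X 2) * Wq s t := by
  unfold Wq
  rw [dif_pos h]
  exact (exists_W s t h).choose_spec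

variable {K : Type} [Field K] [NumberField K] {M : Type} [Field M] [NumberField M] [Algebra K M]

/-- the quotient polynomial -/
def GP (F : Fin (1 + 1) → MvPolynomial (Fin (1 + 1)) K) : MvPolynomial (Fin (3 + 1)) K :=
  ∑ s ∈ (F 0).support, ∑ t ∈ (F 1).support,
    C ((F 0).coeff s * (F 1).coeff t) * map (Int.castRingHom K) (Wq s t)

/-- the pair of two vectors -/
def jn (x y : Fin (1 + 1) → M) : Fin (3 + 1) → M := ![x 0, x 1, y 0, y 1]

/-- the wedge -/
def wd (x y : Fin (1 + 1) → M) : M := x 0 * y 1 - x 1 * y 0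

variable {F : Fin (1 + 1) → MvPolynomial (Fin (1 + 1)) K} {q : ℕ}

lemma act_sum (F : Fin (1 + 1) → MvPolynomial (Fin (1 + 1)) K) (x : Fin (1 + 1) → M)
    (i : Fin (1 + 1)) : act F x i =
      ∑ s ∈ (F i).support, algebraMap K M ((F i).coeff s) * (x 0 ^ s 0 * x 1 ^ s 1) := by
  unfold act
  rw [aeval_def, eval₂_eq']
  refine Finset.sum_congr rfl fun s _ => ?_
  congr 1
  exact Fin.prod_univ_two _

lemma deg_eq (hF : ∀ i, (F i).IsHomogeneous q) {i : Fin (1 + 1)} {s : Fin (1 + 1) →₀ ℕ}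
    (hs : s ∈ (F i).support) : s 0 + s 1 = q := by
  have h1 := hF i (mem_support_iff.mp hs)
  rw [← h1, Finsupp.weight_apply, Finsupp.sum_fintype _ _ (by simp)]
  simp only [Pi.one_apply, smul_eq_mul, mul_one]
  exact (Fin.sum_univ_two _).symm

lemma Wq_eval {s t : Fin (1 + 1) →₀ ℕ} (h : s 0 + s 1 = t 0 + t 1) (x y : Fin (1 + 1) → M) :
    x 0 ^ s 0 * x 1 ^ s 1 * (y 0 ^ t 0 * y 1 ^ t 1) -
      x 0 ^ t 0 * x 1 ^ t 1 * (y 0 ^ s 0 * y 1 ^ s 1) =
      wd x y * aeval (jn x y) (map (Int.castRingHom K) (Wq s t)) := by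
  have h1 := congrArg (fun p => aeval (jn x y) (map (Int.castRingHom K) p)) (Wq_spec h)
  simp only [map_sub, map_mul, map_pow, map_X, aeval_X] at h1
  exact h1

/-- **the wedge of the images** -/
lemma wd_act (hF : ∀ i, (F i).IsHomogeneous q) (x y : Fin (1 + 1) → M) :
    wd (act F x) (act F y) = wd x y * aeval (jn x y) (GP F) := by
  unfold GP
  rw [map_sum, Finset.mul_sum]
  unfold wd
  rw [act_sum, act_sum, act_sum, act_sum, Finset.sum_mul_sum, mul_comm (∑ s ∈ (F 1).support, _),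
    Finset.sum_mul_sum, ← Finset.sum_sub_distrib]
  refine Finset.sum_congr rfl fun s hs => ?_
  rw [map_sum, Finset.mul_sum, ← Finset.sum_sub_distrib]
  refine Finset.sum_congr rfl fun t ht => ?_
  have h1 : s 0 + s 1 = t 0 + t 1 := by rw [deg_eq hF hs, deg_eq hF ht]
  have h2 := Wq_eval (K := K) h1 x y
  rw [map_mul, aeval_C, map_mul]
  unfold wd at h2
  linear_combination (algebraMap K M ((F 0).coeff s) * algebraMap K M ((F 1).coeff t)) * h2

variable {v : FinitePlace M}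

lemma GP_int (h : ∀ i, IntP v (map (algebraMap K M) (F i))) :
    IntP v (map (algebraMap K M) (GP F)) := by
  unfold GP
  rw [map_sum]
  refine IntP.sum fun s _ => ?_
  rw [map_sum]
  refine IntP.sum fun t _ => ?_
  rw [map_mul, map_C]
  refine IntP.mul (IntP.const ?_) ?_
  · rw [map_mul, map_mul]
    refine mul_le_one₀ ?_ (v_nonneg v _) ?_
    · have := h 0 s
      rwa [coeff_map] at this
    · have := h 1 t
      rwa [coeff_map] at this
  · intro m
    rw [map_map, coeff_map]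
    have h1 : ((algebraMap K M).comp (Int.castRingHom K)) ((Wq s t).coeff m) =
        ((((Wq s t).coeff m : ℤ) : 𝓞 M) : M) := by
      rw [RingHom.comp_apply]
      simp
    rw [h1]
    exact H420R3.v_le_one v _

lemma gal_G (g : Gal(M/K)) (x y : Fin (1 + 1) → M) :
    g (aeval (jn x y) (GP F)) = aeval (jn (fun i => g (x i)) (fun i => g (y i))) (GP F) := by
  have h1 : g (aeval (jn x y) (GP F)) = (g.toAlgHom) (aeval (jn x y) (GP F)) := rfl
  rw [h1, ← AlgHom.comp_apply, comp_aeval]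
  congr 2
  funext i
  fin_cases i <;> rfl

end Quot

end

end Pool.Agent.H627.LR
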