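import Mathlib
import Pool.Agent.H627.LR.Wdg

/-!
Distances on the projective line at a finite place, critical residue discs.
-/

set_option autoImplicit false
set_option linter.unusedSectionVars false

namespace Pool.Agent.H627.LR

open NumberField Module MvPolynomial
open Pool.Agent.W238.Leh
open Pool.Agent.H627.LP
open Pool.Agent.H420R3 (mi nv TP ew TP_nonempty mem_TP exists_frac v_lt_one_iff v_fixed_le
  card_inertia nv_pos v_smul)
open scoped Pointwise

noncomputable section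

section Dist

variable {M : Type} [Field M] [NumberField M] (v : FinitePlace M)

/-- the distance of two points of the projective line -/
def dl (x y : Fin (1 + 1) → M) : ℝ := v (wd x y) / (nmf v x * nmf v y)

variable {v}

lemma v_neg (x : M) : v (-x) = v x := by
  rw [← FinitePlace.norm_embedding_eq, map_neg, norm_neg, FinitePlace.norm_embedding_eq]

lemma dl_nonneg (x y : Fin (1 + 1) → M) : 0 ≤ dl v x y :=
  div_nonneg (v_nonneg v _) (mul_nonneg (nmf_nonneg v _) (nmf_nonneg v _))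

lemma dl_comm (x y : Fin (1 + 1) → M) : dl v x y = dl v y x := by
  unfold dl
  have h1 : wd x y = -wd y x := by
    unfold wd
    ring
  rw [h1, v_neg, mul_comm]

lemma dl_self (x : Fin (1 + 1) → M) : dl v x x = 0 := by
  unfold dl
  have h1 : wd x x = 0 := by
    unfold wd
    ring
  rw [h1, map_zero, zero_div]

lemma wd_smul (a b : M) (x y : Fin (1 + 1) → M) : wd (a • x) (b • y) = a * b * wd x y := by
  unfold wd
  simp only [Pi.smul_apply, smul_eq_mul]
  ring

lemma dl_smul {a b : M} (ha : a ≠ 0) (hb : b ≠ 0) (x y : Fin (1 + 1) → M) :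
    dl v (a • x) (b • y) = dl v x y := by
  unfold dl
  rw [wd_smul, nmf_smul, nmf_smul, map_mul, map_mul]
  have h1 : v a ≠ 0 := (FinitePlace.pos_iff.mpr ha).ne'
  have h2 : v b ≠ 0 := (FinitePlace.pos_iff.mpr hb).ne'
  have h3 : v a * nmf v x * (v b * nmf v y) = (v a * v b) * (nmf v x * nmf v y) := by ring
  rw [h3, mul_div_mul_left _ _ (mul_ne_zero h1 h2)]

lemma wd_le (x y : Fin (1 + 1) → M) : v (wd x y) ≤ nmf v x * nmf v y := by
  unfold wd
  refine (v_sub_le v _ _).trans (max_le ?_ ?_)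
  · rw [map_mul]
    exact mul_le_mul (le_nmf v x 0) (le_nmf v y 1) (v_nonneg v _) (nmf_nonneg v _)
  · rw [map_mul]
    exact mul_le_mul (le_nmf v x 1) (le_nmf v y 0) (v_nonneg v _) (nmf_nonneg v _)

lemma dl_le_one (x y : Fin (1 + 1) → M) : dl v x y ≤ 1 :=
  div_le_one_of_le₀ (wd_le x y) (mul_nonneg (nmf_nonneg v _) (nmf_nonneg v _))

lemma wd_st (x y : Fin (1 + 1) → M) (s t : Fin (1 + 1)) :
    v (x s * y t - x t * y s) ≤ v (wd x y) := by
  have h0 : v (0 : M) ≤ v (wd x y) := by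
    rw [map_zero]
    exact v_nonneg v _
  fin_cases s <;> fin_cases t
  · have : x 0 * y 0 - x 0 * y 0 = (0 : M) := sub_self _
    change v (x 0 * y 0 - x 0 * y 0) ≤ _
    rw [this]
    exact h0
  · exact le_rfl
  · change v (x 1 * y 0 - x 0 * y 1) ≤ v (x 0 * y 1 - x 1 * y 0)
    have : x 1 * y 0 - x 0 * y 1 = -(x 0 * y 1 - x 1 * y 0) := by ring
    rw [this, v_neg]
  · have : x 1 * y 1 - x 1 * y 1 = (0 : M) := sub_self _
    change v (x 1 * y 1 - x 1 * y 1) ≤ _
    rw [this]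
    exact h0

lemma dl_le_iff {x y : Fin (1 + 1) → M} (hx : x ≠ 0) (hy : y ≠ 0) {η : ℝ} :
    dl v x y ≤ η ↔ v (wd x y) ≤ η * (nmf v x * nmf v y) := by
  unfold dl
  rw [div_le_iff₀ (mul_pos (nmf_pos v hx) (nmf_pos v hy))]

lemma near_of_dl {x y : Fin (1 + 1) → M} (hx : x ≠ 0) (hy : y ≠ 0) {η : ℝ}
    (h : dl v x y ≤ η) : Near v η x y := fun s t =>
  (wd_st x y s t).trans ((dl_le_iff hx hy).mp h)

lemma dl_tri {x y z : Fin (1 + 1) → M} (hx : x ≠ 0) (hy : y ≠ 0) (hz : z ≠ 0) :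
    dl v x z ≤ max (dl v x y) (dl v y z) := by
  rw [dl_le_iff hx hz]
  obtain ⟨i, hi⟩ := exists_nmf (v := v) y
  have hyp := nmf_pos v hy
  have hxp := nmf_pos v hx
  have hzp := nmf_pos v hz
  have key : ∀ i : Fin (1 + 1), wd x z * y i = wd x y * z i + wd y z * x i := by
    intro i
    fin_cases i
    · change (x 0 * z 1 - x 1 * z 0) * y 0 = (x 0 * y 1 - x 1 * y 0) * z 0 +
        (y 0 * z 1 - y 1 * z 0) * x 0
      ring
    · change (x 0 * z 1 - x 1 * z 0) * y 1 = (x 0 * y 1 - x 1 * y 0) * z 1 +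
        (y 0 * z 1 - y 1 * z 0) * x 1
      ring
  have h1 : v (wd x z) * nmf v y ≤
      max (dl v x y) (dl v y z) * (nmf v x * nmf v z) * nmf v y := by
    rw [← hi, ← map_mul, key i]
    refine (FinitePlace.add_le v _ _).trans (max_le ?_ ?_)
    · rw [map_mul]
      calc v (wd x y) * v (z i) ≤ (dl v x y * (nmf v x * nmf v y)) * nmf v z :=
            mul_le_mul ((dl_le_iff hx hy).mp le_rfl) (le_nmf v z i) (v_nonneg v _)
              (mul_nonneg (dl_nonneg _ _) (mul_nonneg hxp.le hyp.le))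
        _ = dl v x y * (nmf v x * nmf v z) * v (y i) := by rw [hi]; ring
        _ ≤ _ := by
          gcongr
          exact le_max_left _ _
    · rw [map_mul]
      calc v (wd y z) * v (x i) ≤ (dl v y z * (nmf v y * nmf v z)) * nmf v x :=
            mul_le_mul ((dl_le_iff hy hz).mp le_rfl) (le_nmf v x i) (v_nonneg v _)
              (mul_nonneg (dl_nonneg _ _) (mul_nonneg hyp.le hzp.le))
        _ = dl v y z * (nmf v x * nmf v z) * v (y i) := by rw [hi]; ring
        _ ≤ _ := by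
          gcongr
          exact le_max_right _ _
  exact le_of_mul_le_mul_right h1 hyp

lemma dl_lt_tri {x y z : Fin (1 + 1) → M} (hx : x ≠ 0) (hy : y ≠ 0) (hz : z ≠ 0)
    (h1 : dl v x y < 1) (h2 : dl v y z < 1) : dl v x z < 1 :=
  lt_of_le_of_lt (dl_tri hx hy hz) (max_lt h1 h2)

/-- normalisation -/
def nr (i : Fin (1 + 1)) (x : Fin (1 + 1) → M) : Fin (1 + 1) → M := (x i)⁻¹ • x

lemma ne_zero_of_coord {x : Fin (1 + 1) → M} (hx : x ≠ 0) {i : Fin (1 + 1)}
    (hi : v (x i) = nmf v x) : x i ≠ 0 := by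
  intro h0
  rw [h0, map_zero] at hi
  have := nmf_pos v hx
  linarith

lemma nr_coord {x : Fin (1 + 1) → M} {i : Fin (1 + 1)} (h : x i ≠ 0) : nr i x i = 1 := by
  unfold nr
  simp only [Pi.smul_apply, smul_eq_mul]
  exact inv_mul_cancel₀ h

lemma nmf_nr {x : Fin (1 + 1) → M} (hx : x ≠ 0) {i : Fin (1 + 1)} (hi : v (x i) = nmf v x) :
    nmf v (nr i x) = 1 := by
  unfold nr
  rw [nmf_smul, map_inv₀, hi, inv_mul_cancel₀ (nmf_pos v hx).ne']

lemma coord_of_dl {x y : Fin (1 + 1) → M} (hx : x ≠ 0) (hy : y ≠ 0) (h : dl v x y < 1)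
    {i : Fin (1 + 1)} (hi : v (y i) = nmf v y) : v (x i) = nmf v x :=
  (near_of_dl hx hy le_rfl).coord h hx hy hi

/-- the coordinates of close normalised vectors -/
lemma sub_le_dl {x y : Fin (1 + 1) → M} {i : Fin (1 + 1)} (hx : x i = 1) (hy : y i = 1)
    (hx1 : nmf v x = 1) (hy1 : nmf v y = 1) (j : Fin (1 + 1)) : v (x j - y j) ≤ dl v x y := by
  have h1 : x j - y j = x j * y i - x i * y j := by rw [hx, hy]; ring
  rw [h1]
  refine (wd_st x y j i).trans (le_of_eq ?_)
  unfold dl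
  rw [hx1, hy1, mul_one, div_one]

end Dist

section Map

variable {K : Type} [Field K] [NumberField K] {M : Type} [Field M] [NumberField M] [Algebra K M]
variable {F : Fin (1 + 1) → MvPolynomial (Fin (1 + 1)) K} {q : ℕ} {v : FinitePlace M}

/-- the value of the quotient polynomial -/
def gv (F : Fin (1 + 1) → MvPolynomial (Fin (1 + 1)) K) (x y : Fin (1 + 1) → M) : M :=
  aeval (jn x y) (GP F)

lemma jn_le {x y : Fin (1 + 1) → M} (hx : nmf v x = 1) (hy : nmf v y = 1) (i : Fin (3 + 1)) :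
    v (jn x y i) ≤ 1 := by
  have h1 : ∀ j, v (x j) ≤ 1 := fun j => (le_nmf v x j).trans hx.le
  have h2 : ∀ j, v (y j) ≤ 1 := fun j => (le_nmf v y j).trans hy.le
  fin_cases i
  · exact h1 0
  · exact h1 1
  · exact h2 0
  · exact h2 1

variable (hR : GR v F q) (hF : ∀ i, (F i).IsHomogeneous q)
include hR

lemma gv_le {x y : Fin (1 + 1) → M} (hx : nmf v x = 1) (hy : nmf v y = 1) :
    v (gv F x y) ≤ 1 := by
  have h1 := GP_int hR.int
  refine eval_small v zero_le_one (R := GP F) (fun m => ?_) (jn_le hx hy)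
  have := h1 m
  rwa [coeff_map] at this

lemma gv_sub {x y x' y' : Fin (1 + 1) → M} (hx : nmf v x = 1) (hy : nmf v y = 1)
    (hx' : nmf v x' = 1) (hy' : nmf v y' = 1) {δ : ℝ} (hδ : 0 ≤ δ)
    (h1 : ∀ j, v (x j - x' j) ≤ δ) (h2 : ∀ j, v (y j - y' j) ≤ δ) :
    v (gv F x y - gv F x' y') ≤ δ := by
  have h3 := GP_int hR.int
  have h4 := eval_sub_small v zero_le_one hδ (R := GP F) (fun m => by
    have := h3 m
    rwa [coeff_map] at this) (jn_le hx hy) (jn_le hx' hy') (fun i => by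
      fin_cases i
      · exact h1 0
      · exact h1 1
      · exact h2 0
      · exact h2 1)
  rwa [one_mul] at h4

include hF

lemma act_ne {x : Fin (1 + 1) → M} (hx : x ≠ 0) : act F x ≠ 0 := by
  intro h0
  have h1 := hR.nm x
  rw [h0] at h1
  have h3 : nmf v (0 : Fin (1 + 1) → M) = 0 := by
    apply le_antisymm
    · exact nmf_le fun i => by simp
    · exact nmf_nonneg _ _
  rw [h3] at h1
  have := pow_pos (nmf_pos v hx) q
  linarith

/-- the distance of the images, for normalised vectors -/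
lemma dl_act_nr {x y : Fin (1 + 1) → M} (hx : nmf v x = 1) (hy : nmf v y = 1) :
    dl v (act F x) (act F y) = dl v x y * v (gv F x y) := by
  unfold dl
  rw [hR.nm, hR.nm, hx, hy, one_pow, mul_one, div_one, div_one, wd_act hF, map_mul]
  rfl

/-- scaling -/
lemma dl_act_smul {a b : M} (ha : a ≠ 0) (hb : b ≠ 0) (x y : Fin (1 + 1) → M) :
    dl v (act F (a • x)) (act F (b • y)) = dl v (act F x) (act F y) := by
  rw [act_smul hF, act_smul hF]
  exact dl_smul (pow_ne_zero _ ha) (pow_ne_zero _ hb) _ _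

lemma dl_act_nr' {x y : Fin (1 + 1) → M} (hx : x ≠ 0) (hy : y ≠ 0) {i j : Fin (1 + 1)}
    (hi : v (x i) = nmf v x) (hj : v (y j) = nmf v y) :
    dl v (act F x) (act F y) = dl v x y * v (gv F (nr i x) (nr j y)) := by
  have h1 := dl_act_nr hR hF (nmf_nr hx hi) (nmf_nr hy hj)
  have hi0 := ne_zero_of_coord hx hi
  have hj0 := ne_zero_of_coord hy hj
  unfold nr at h1
  rw [dl_act_smul hR hF (inv_ne_zero hi0) (inv_ne_zero hj0),
    dl_smul (inv_ne_zero hi0) (inv_ne_zero hj0)] at h1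
  exact h1

/-- distances do not increase -/
lemma dl_act_le {x y : Fin (1 + 1) → M} (hx : x ≠ 0) (hy : y ≠ 0) :
    dl v (act F x) (act F y) ≤ dl v x y := by
  obtain ⟨i, hi⟩ := exists_nmf (v := v) x
  obtain ⟨j, hj⟩ := exists_nmf (v := v) y
  rw [dl_act_nr' hR hF hx hy hi hj]
  exact mul_le_of_le_one_right (dl_nonneg _ _) (gv_le hR (nmf_nr hx hi) (nmf_nr hy hj))

omit hR hF in
/-- critical residue discs -/
def Crit (v : FinitePlace M) (F : Fin (1 + 1) → MvPolynomial (Fin (1 + 1)) K)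
    (y : Fin (1 + 1) → M) : Prop :=
  ∃ x x' : Fin (1 + 1) → M, x ≠ 0 ∧ x' ≠ 0 ∧ dl v x y < 1 ∧ dl v x' y < 1 ∧
    dl v (act F x) (act F x') < dl v x x'

omit hR hF in
lemma Crit.congr {y y' : Fin (1 + 1) → M} (hy : y ≠ 0) (hy' : y' ≠ 0) (h : Crit v F y)
    (hd : dl v y y' < 1) : Crit v F y' := by
  obtain ⟨x, x', hx, hx', h1, h2, h3⟩ := h
  exact ⟨x, x', hx, hx', dl_lt_tri hx hy hy' h1 hd, dl_lt_tri hx' hy hy' h2 hd, h3⟩

/-- outside the critical discs distances are preserved -/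
lemma dl_act_eq {y : Fin (1 + 1) → M} (h : ¬ Crit v F y) {x x' : Fin (1 + 1) → M} (hx : x ≠ 0)
    (hx' : x' ≠ 0) (h1 : dl v x y < 1) (h2 : dl v x' y < 1) :
    dl v (act F x) (act F x') = dl v x x' := by
  apply le_antisymm (dl_act_le hR hF hx hx')
  by_contra hcon
  push Not at hcon
  exact h ⟨x, x', hx, hx', h1, h2, hcon⟩

end Map

end

end Pool.Agent.H627.LR
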