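import Mathlib
import Pool.Agent.H627.LR.Dsc

/-!
Points fixed by the inertia group, contraction at critical discs.
-/

set_option autoImplicit false
set_option linter.unusedSectionVars false

namespace Pool.Agent.H627.LR

open NumberField Module MvPolynomial
open Pool.Agent.W238.Leh
open Pool.Agent.H627.LP
open Pool.Agent.H420R3 (mi nv TP ew TP_nonempty mem_TP exists_frac v_lt_one_iff v_fixed_le
  card_inertia nv_pos v_smul)
open scoped Pointwise

noncomputable section

variable {K : Type} [Field K] [NumberField K] {M : Type} [Field M] [NumberField M] [Algebra K M]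
  [IsGalois K M]
variable {F : Fin (1 + 1) → MvPolynomial (Fin (1 + 1)) K} {q : ℕ} {v : FinitePlace M}

/-- coordinates fixed by the inertia group -/
def IF (K : Type) [Field K] {M : Type} [Field M] [NumberField M] [Algebra K M]
    (v : FinitePlace M) (c : Fin (1 + 1) → M) : Prop :=
  ∀ h ∈ (mi v).inertia Gal(M/K), ∀ i, h (c i) = c i

lemma IF.act {c : Fin (1 + 1) → M} (hc : IF K v c) : IF K v (act F c) := by
  intro h hh i
  have h1 := congrFun (act_gal (F := F) h c) i
  rw [← h1]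
  congr 1
  congr 1
  funext j
  exact hc h hh j

lemma IF.nr {c : Fin (1 + 1) → M} (hc : IF K v c) (i : Fin (1 + 1)) : IF K v (nr i c) := by
  intro h hh j
  unfold LR.nr
  simp only [Pi.smul_apply, smul_eq_mul, map_mul, map_inv₀, hc h hh]

section Places

variable {P : Ideal (𝓞 K)} [hP : P.IsMaximal]

lemma fixed_le (hP0 : P ≠ ⊥) (hv : v ∈ TP M P) {y : M}
    (hy : ∀ h ∈ (mi v).inertia Gal(M/K), h y = y) (hy1 : v y < 1) :
    v y ≤ Real.exp (-ew K v) := by
  refine (v_fixed_le v _ le_rfl hy hy1).trans (le_of_eq ?_)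
  rw [← card_inertia hP0 hv, Real.exp_neg, Real.exp_nat_mul, Real.exp_log (nv_pos v)]

lemma cen_dist (hP0 : P ≠ ⊥) (hv : v ∈ TP M P) {c c' : Fin (1 + 1) → M} (hc0 : c ≠ 0)
    (hc'0 : c' ≠ 0) (hc : IF K v c) (hc' : IF K v c') (h : dl v c c' < 1) :
    dl v c c' ≤ Real.exp (-ew K v) := by
  obtain ⟨i, hi⟩ := exists_nmf (v := v) c
  obtain ⟨j, hj⟩ := exists_nmf (v := v) c'
  have hi0 := ne_zero_of_coord hc0 hi
  have hj0 := ne_zero_of_coord hc'0 hj
  have h1 : dl v (nr i c) (nr j c') = v (wd (nr i c) (nr j c')) := by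
    unfold dl
    rw [nmf_nr hc0 hi, nmf_nr hc'0 hj, mul_one, div_one]
  have h2 : dl v (nr i c) (nr j c') = dl v c c' :=
    dl_smul (inv_ne_zero hi0) (inv_ne_zero hj0) c c'
  rw [← h2, h1]
  apply fixed_le hP0 hv
  · intro h hh
    unfold wd
    rw [map_sub, map_mul, map_mul, hc.nr i h hh, hc.nr i h hh, hc'.nr j h hh, hc'.nr j h hh]
  · rw [← h1, h2]
    exact h

variable (hR : GR v F q) (hF : ∀ i, (F i).IsHomogeneous q)
include hR hF

/-- contraction at critical discs -/
lemma crit_step (hP0 : P ≠ ⊥) (hv : v ∈ TP M P) {x c y : Fin (1 + 1) → M} (hx : x ≠ 0)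
    (hc0 : c ≠ 0) (hy : y ≠ 0) (hc : IF K v c) (hcr : Crit v F y) (hcy : dl v c y < 1)
    (hxc : dl v x c < 1) :
    dl v (act F x) (act F c) ≤ dl v x c * max (dl v x c) (Real.exp (-ew K v)) := by
  obtain ⟨x₀, x₁, hx₀, hx₁, h1, h2, h3⟩ := hcr
  obtain ⟨i, hi⟩ := exists_nmf (v := v) c
  have hyc : dl v y c < 1 := by rwa [dl_comm]
  have h1c : dl v x₀ c < 1 := dl_lt_tri hx₀ hy hc0 h1 hyc
  have h2c : dl v x₁ c < 1 := dl_lt_tri hx₁ hy hc0 h2 hyc
  have hi₀ := coord_of_dl hx₀ hc0 h1c hi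
  have hi₁ := coord_of_dl hx₁ hc0 h2c hi
  have hix := coord_of_dl hx hc0 hxc hi
  have ni₀ := ne_zero_of_coord hx₀ hi₀
  have ni₁ := ne_zero_of_coord hx₁ hi₁
  have nic := ne_zero_of_coord hc0 hi
  have nix := ne_zero_of_coord hx hix
  -- the value at the critical pair
  have hg0 : v (gv F (nr i x₀) (nr i x₁)) < 1 := by
    by_contra hcon
    push Not at hcon
    rw [dl_act_nr' hR hF hx₀ hx₁ hi₀ hi₁] at h3
    have := le_mul_of_one_le_right (dl_nonneg (v := v) x₀ x₁) hcon
    linarith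
  -- the value at the centre
  have hgc : v (gv F (nr i c) (nr i c)) < 1 := by
    have h4 : v (gv F (nr i c) (nr i c) - gv F (nr i x₀) (nr i x₁)) ≤
        max (dl v x₀ c) (dl v x₁ c) := by
      refine gv_sub hR (nmf_nr hc0 hi) (nmf_nr hc0 hi) (nmf_nr hx₀ hi₀) (nmf_nr hx₁ hi₁)
        ((dl_nonneg _ _).trans (le_max_left _ _)) (fun j => ?_) fun j => ?_
      · refine (sub_le_dl (nr_coord nic) (nr_coord ni₀) (nmf_nr hc0 hi) (nmf_nr hx₀ hi₀)
          j).trans ?_
        refine le_trans (le_of_eq ?_) (le_max_left _ _)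
        rw [dl_comm x₀ c]
        exact dl_smul (inv_ne_zero nic) (inv_ne_zero ni₀) c x₀
      · refine (sub_le_dl (nr_coord nic) (nr_coord ni₁) (nmf_nr hc0 hi) (nmf_nr hx₁ hi₁)
          j).trans ?_
        refine le_trans (le_of_eq ?_) (le_max_right _ _)
        rw [dl_comm x₁ c]
        exact dl_smul (inv_ne_zero nic) (inv_ne_zero ni₁) c x₁
    have h5 : gv F (nr i c) (nr i c) =
        (gv F (nr i c) (nr i c) - gv F (nr i x₀) (nr i x₁)) + gv F (nr i x₀) (nr i x₁) := by
      ring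
    rw [h5]
    exact lt_of_le_of_lt (FinitePlace.add_le v _ _)
      (max_lt (lt_of_le_of_lt h4 (max_lt h1c h2c)) hg0)
  have hgc' : v (gv F (nr i c) (nr i c)) ≤ Real.exp (-ew K v) := by
    apply fixed_le hP0 hv _ hgc
    intro h hh
    unfold gv
    rw [gal_G]
    have : (fun j => h (nr i c j)) = nr i c := funext fun j => hc.nr i h hh j
    rw [this]
  have h6 : v (gv F (nr i x) (nr i c) - gv F (nr i c) (nr i c)) ≤ dl v x c := by
    refine gv_sub hR (nmf_nr hx hix) (nmf_nr hc0 hi) (nmf_nr hc0 hi) (nmf_nr hc0 hi)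
      (dl_nonneg _ _) (fun j => ?_) fun j => ?_
    · refine (sub_le_dl (nr_coord nix) (nr_coord nic) (nmf_nr hx hix) (nmf_nr hc0 hi)
        j).trans (le_of_eq ?_)
      exact dl_smul (inv_ne_zero nix) (inv_ne_zero nic) x c
    · rw [sub_self, map_zero]
      exact dl_nonneg _ _
  rw [dl_act_nr' hR hF hx hc0 hix hi]
  refine mul_le_mul_of_nonneg_left ?_ (dl_nonneg _ _)
  have h7 : gv F (nr i x) (nr i c) =
      (gv F (nr i x) (nr i c) - gv F (nr i c) (nr i c)) + gv F (nr i c) (nr i c) := by ring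
  rw [h7]
  exact (FinitePlace.add_le v _ _).trans (max_le_max h6 hgc')

end Places

/-- closeness to a point fixed by the inertia group -/
def Cc (K : Type) [Field K] [NumberField K] {M : Type} [Field M] [NumberField M] [Algebra K M]
    (v : FinitePlace M) (l : ℝ) (x : Fin (1 + 1) → M) : Prop :=
  ∃ c : Fin (1 + 1) → M, c ≠ 0 ∧ IF K v c ∧ dl v x c ≤ Real.exp (-(ew K v * l))

lemma Cc.mono {l l' : ℝ} {x : Fin (1 + 1) → M} (h : Cc K v l x) (hl : l' ≤ l) :
    Cc K v l' x := by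
  obtain ⟨c, hc0, hc, hd⟩ := h
  refine ⟨c, hc0, hc, hd.trans ?_⟩
  rw [Real.exp_le_exp, neg_le_neg_iff]
  exact mul_le_mul_of_nonneg_left hl (H420R3.ew_pos v).le

lemma Cc.step (hR : GR v F q) (hF : ∀ i, (F i).IsHomogeneous q) {l : ℝ}
    {x : Fin (1 + 1) → M} (hx : x ≠ 0) (h : Cc K v l x) : Cc K v l (act F x) := by
  obtain ⟨c, hc0, hc, hd⟩ := h
  exact ⟨act F c, act_ne hR hF hc0, hc.act, (dl_act_le hR hF hx hc0).trans hd⟩

lemma Cc.crit {P : Ideal (𝓞 K)} [hP : P.IsMaximal] (hP0 : P ≠ ⊥) (hv : v ∈ TP M P)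
    (hR : GR v F q) (hF : ∀ i, (F i).IsHomogeneous q) {l : ℝ} (hl0 : 0 < l) (hl : l ≤ 1)
    {x : Fin (1 + 1) → M} (hx : x ≠ 0) (h : Cc K v l x) (hcr : Crit v F x) :
    Cc K v (2 * l) (act F x) := by
  obtain ⟨c, hc0, hc, hd⟩ := h
  have hew := H420R3.ew_pos (K := K) v
  have hlt : dl v x c < 1 := by
    refine lt_of_le_of_lt hd ?_
    rw [Real.exp_lt_one_iff]
    have : 0 < ew K v * l := by positivity
    linarith
  refine ⟨act F c, act_ne hR hF hc0, hc.act, ?_⟩
  refine (crit_step hR hF hP0 hv hx hc0 hx hc hcr (by rwa [dl_comm]) hlt).trans ?_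
  have h1 : max (dl v x c) (Real.exp (-ew K v)) ≤ Real.exp (-(ew K v * l)) := by
    refine max_le hd ?_
    rw [Real.exp_le_exp, neg_le_neg_iff]
    exact mul_le_of_le_one_right hew.le hl
  calc dl v x c * max (dl v x c) (Real.exp (-ew K v)) ≤
      Real.exp (-(ew K v * l)) * Real.exp (-(ew K v * l)) :=
        mul_le_mul hd h1 ((dl_nonneg _ _).trans (le_max_left _ _)) (Real.exp_pos _).le
    _ = _ := by
      rw [← Real.exp_add]
      congr 1
      ring

/-- closeness of two points in the same disc -/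
lemma Cc.dist {P : Ideal (𝓞 K)} [hP : P.IsMaximal] (hP0 : P ≠ ⊥) (hv : v ∈ TP M P)
    {l : ℝ} (hl0 : 0 < l) (hl : l ≤ 1) {x y : Fin (1 + 1) → M} (hx : x ≠ 0) (hy : y ≠ 0)
    (h : Cc K v l x) (h' : Cc K v l y) (hd : dl v x y < 1) :
    dl v x y ≤ Real.exp (-(ew K v * l)) := by
  obtain ⟨c, hc0, hc, hcd⟩ := h
  obtain ⟨c', hc'0, hc', hcd'⟩ := h'
  have hew := H420R3.ew_pos (K := K) v
  have hlt1 : Real.exp (-(ew K v * l)) < 1 := by
    rw [Real.exp_lt_one_iff]
    have : 0 < ew K v * l := by positivity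
    linarith
  have h1 : dl v c c' < 1 := by
    refine dl_lt_tri hc0 hx hc'0 ?_ (dl_lt_tri hx hy hc'0 hd (lt_of_le_of_lt hcd' hlt1))
    rw [dl_comm]
    exact lt_of_le_of_lt hcd hlt1
  have h2 : dl v c c' ≤ Real.exp (-(ew K v * l)) := by
    refine (cen_dist hP0 hv hc0 hc'0 hc hc' h1).trans ?_
    rw [Real.exp_le_exp, neg_le_neg_iff]
    exact mul_le_of_le_one_right hew.le hl
  refine (dl_tri hx hc0 hy).trans (max_le hcd ?_)
  refine (dl_tri hc0 hc'0 hy).trans (max_le h2 ?_)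
  rw [dl_comm]
  exact hcd'

/-! ### stabilizers in the inertia group -/

/-- the stabilizer of a point in the inertia group -/
def St (K : Type) [Field K] {M : Type} [Field M] [NumberField M] [Algebra K M]
    (v : FinitePlace M) (x : Fin (1 + 1) → M) : Subgroup Gal(M/K) :=
  (mi v).inertia Gal(M/K) ⊓
    { carrier := {h | h (x 0 / x 1) = x 0 / x 1 ∧ h (x 1 / x 0) = x 1 / x 0}
      mul_mem' := by
        rintro a b ⟨ha, ha'⟩ ⟨hb, hb'⟩
        constructor
        · rw [AlgEquiv.mul_apply, hb, ha]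
        · rw [AlgEquiv.mul_apply, hb', ha']
      one_mem' := ⟨rfl, rfl⟩
      inv_mem' := by
        rintro a ⟨ha, ha'⟩
        constructor
        · have h1 : a⁻¹ (a (x 0 / x 1)) = a⁻¹ (x 0 / x 1) := by rw [ha]
          rw [← AlgEquiv.mul_apply, inv_mul_cancel] at h1
          exact h1.symm
        · have h1 : a⁻¹ (a (x 1 / x 0)) = a⁻¹ (x 1 / x 0) := by rw [ha']
          rw [← AlgEquiv.mul_apply, inv_mul_cancel] at h1
          exact h1.symm }

lemma mem_St {x : Fin (1 + 1) → M} (hx : x ≠ 0) {h : Gal(M/K)} :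
    h ∈ St K v x ↔ h ∈ (mi v).inertia Gal(M/K) ∧ wd (fun i => h (x i)) x = 0 := by
  unfold St
  rw [Subgroup.mem_inf]
  refine and_congr_right fun _ => ?_
  change (h (x 0 / x 1) = x 0 / x 1 ∧ h (x 1 / x 0) = x 1 / x 0) ↔ _
  unfold wd
  constructor
  · rintro ⟨h1, h2⟩
    by_cases h0 : x 1 = 0
    · change h (x 0) * x 1 - h (x 1) * x 0 = 0
      rw [h0, map_zero]
      ring
    · have h3 : h (x 1) ≠ 0 := (map_ne_zero h).mpr h0
      rw [map_div₀, div_eq_div_iff h3 h0] at h1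
      change h (x 0) * x 1 - h (x 1) * x 0 = 0
      rw [h1]
      ring
  · intro h1
    have h2 : h (x 0) * x 1 = h (x 1) * x 0 := sub_eq_zero.mp h1
    by_cases h0 : x 1 = 0
    · rw [h0, div_zero, map_zero, zero_div, map_zero]
      exact ⟨rfl, rfl⟩
    · have h3 : h (x 1) ≠ 0 := (map_ne_zero h).mpr h0
      refine ⟨?_, ?_⟩
      · rw [map_div₀, div_eq_div_iff h3 h0, h2]
        ring
      · by_cases h4 : x 0 = 0
        · rw [h4, div_zero, map_zero]
        · have h5 : h (x 0) ≠ 0 := (map_ne_zero h).mpr h4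
          rw [map_div₀, div_eq_div_iff h5 h4, ← h2]
          ring

lemma St_fix {x : Fin (1 + 1) → M} (i : Fin (1 + 1)) (hi : x i ≠ 0) {h : Gal(M/K)}
    (hh : h ∈ St K v x) (j : Fin (1 + 1)) : h (nr i x j) = nr i x j := by
  unfold St at hh
  obtain ⟨h1, h2⟩ := (Subgroup.mem_inf.mp hh).2
  unfold LR.nr
  simp only [Pi.smul_apply, smul_eq_mul]
  have key : ∀ a b : M, a⁻¹ * b = b / a := fun a b => by rw [mul_comm, div_eq_mul_inv]
  rw [key]
  fin_cases i <;> fin_cases j
  · have hi' : x 0 ≠ 0 := hi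
    change h (x 0 / x 0) = x 0 / x 0
    rw [div_self hi', map_one]
  · exact h2
  · exact h1
  · have hi' : x 1 ≠ 0 := hi
    change h (x 1 / x 1) = x 1 / x 1
    rw [div_self hi', map_one]

/-- points are close to points fixed by the inertia group -/
lemma cc_St {P : Ideal (𝓞 K)} [hP : P.IsMaximal] (hP0 : P ≠ ⊥) (hv : v ∈ TP M P)
    {x : Fin (1 + 1) → M} (hx : x ≠ 0) :
    Cc K v ((Nat.card (St K v x) : ℝ) / Nat.card ((mi v).inertia Gal(M/K))) x := by
  classical
  set I := (mi v).inertia Gal(M/K) with hI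
  have hSI : St K v x ≤ I := inf_le_left
  obtain ⟨i, hi⟩ := exists_nmf (v := v) x
  have hi0 := ne_zero_of_coord hx hi
  set w := nr i x with hw
  have hw1 : nmf v w = 1 := nmf_nr hx hi
  have hwle : ∀ j, v (w j) ≤ 1 := fun j => (le_nmf v w j).trans hw1.le
  choose c hc1 hc2 hc3 using fun j => center (K := K) v (hwle j)
  set η : ℝ := Real.exp (-(ew K v * ((Nat.card (St K v x) : ℝ) / Nat.card I))) with hη
  have hcard : (0 : ℝ) < Nat.card I := by exact_mod_cast Nat.card_pos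
  have hb : (nv v ^ Nat.card (St K v x))⁻¹ = η := by
    rw [hη, ← card_inertia hP0 hv, Real.exp_neg]
    congr 1
    have h1 : (Nat.card I : ℝ) * Real.log (nv v) * ((Nat.card (St K v x) : ℝ) / Nat.card I) =
        (Nat.card (St K v x) : ℕ) * Real.log (nv v) := by
      field_simp
    rw [h1, Real.exp_nat_mul, Real.exp_log (nv_pos v)]
  have hcl : ∀ j, v (w j - c j) ≤ η := by
    intro j
    refine le_trans (v_fixed_le v (St K v x) hSI ?_ (hc3 j)) hb.le
    intro h hh
    rw [map_sub, St_fix i hi0 hh, hc1 j h (hSI hh)]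
  have hwi : w i = 1 := nr_coord hi0
  have hcn : nmf v c = 1 := by
    apply le_antisymm (nmf_le hc2)
    by_contra hcon
    push Not at hcon
    have h1 := lt_of_le_of_lt (le_nmf v c i) hcon
    have h2 := v_sub_le v (w i - c i) (- c i)
    rw [sub_neg_eq_add, sub_add_cancel, hwi, map_one, v_neg] at h2
    have h4 := max_lt (hc3 i) h1
    rw [hwi] at h4
    linarith
  have hc0 : c ≠ 0 := by
    rintro h0
    rw [h0] at hcn
    have h3 : nmf v (0 : Fin (1 + 1) → M) = 0 := by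
      apply le_antisymm
      · exact nmf_le fun i => by simp
      · exact nmf_nonneg _ _
    rw [h3] at hcn
    norm_num at hcn
  refine ⟨c, hc0, fun h hh j => hc1 j h hh, ?_⟩
  have hCl : Cl v η w c := ⟨hw1, hcn, hcl⟩
  have h1 : dl v x c = dl v w c := by
    have := dl_smul (v := v) (inv_ne_zero hi0) one_ne_zero x c
    rw [one_smul] at this
    exact this.symm
  rw [h1]
  unfold dl
  rw [hw1, hcn, mul_one, div_one]
  exact hCl.wedge 0 1

/-- the inertia group acts trivially on discs -/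
lemma dl_inertia {h : Gal(M/K)} (hh : h ∈ (mi v).inertia Gal(M/K)) {x : Fin (1 + 1) → M}
    (hx : x ≠ 0) : dl v (fun i => h (x i)) x < 1 := by
  have hst := H420R3.inertia_smul v hh
  have hint : ∀ a : M, v a ≤ 1 → v (h a - a) < 1 := by
    intro a ha
    obtain ⟨c, hc1, _, hc3⟩ := center (K := K) v ha
    have h1 : h a - a = h (a - c) - (a - c) := by
      rw [map_sub, hc1 h hh]
      ring
    rw [h1]
    refine lt_of_le_of_lt (v_sub_le v _ _) (max_lt ?_ hc3)
    rwa [v_smul v hst]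
  obtain ⟨i, hi⟩ := exists_nmf (v := v) x
  have hi0 := ne_zero_of_coord hx hi
  set w := nr i x with hw
  have hw1 : nmf v w = 1 := nmf_nr hx hi
  have hwle : ∀ j, v (w j) ≤ 1 := fun j => (le_nmf v w j).trans hw1.le
  have hhi0 : h (x i) ≠ 0 := (map_ne_zero h).mpr hi0
  have h1 : (fun j => h (w j)) = (h (x i))⁻¹ • fun j => h (x j) := by
    funext j
    simp only [hw, nr, Pi.smul_apply, smul_eq_mul, map_mul, map_inv₀]
  have h2 : dl v (fun j => h (x j)) x = dl v (fun j => h (w j)) w := by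
    rw [h1]
    exact (dl_smul (inv_ne_zero hhi0) (inv_ne_zero hi0) _ _).symm
  have h3 : nmf v (fun j => h (w j)) = 1 := by
    rw [← hw1]
    unfold nmf
    simp only [v_smul v hst]
  rw [h2]
  unfold dl
  rw [h3, hw1, mul_one, div_one]
  have h4 : wd (fun j => h (w j)) w = (h (w 0) - w 0) * w 1 - (h (w 1) - w 1) * w 0 := by
    unfold wd
    ring
  rw [h4]
  refine lt_of_le_of_lt (v_sub_le v _ _) (max_lt ?_ ?_)
  · rw [map_mul]
    exact lt_of_le_of_lt (mul_le_of_le_one_right (v_nonneg v _) (hwle 1)) (hint _ (hwle 0))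
  · rw [map_mul]
    exact lt_of_le_of_lt (mul_le_of_le_one_right (v_nonneg v _) (hwle 0)) (hint _ (hwle 1))

/-- stabilizers do not grow outside the critical discs -/
lemma St_act (hR : GR v F q) (hF : ∀ i, (F i).IsHomogeneous q) {x : Fin (1 + 1) → M}
    (hx : x ≠ 0) (hcr : ¬ Crit v F x) : St K v (act F x) ≤ St K v x := by
  intro h hh
  rw [mem_St (act_ne hR hF hx)] at hh
  rw [mem_St hx]
  refine ⟨hh.1, ?_⟩
  have hhx : (fun i => h (x i)) ≠ 0 := by
    intro h0
    apply hx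
    funext i
    have := congrFun h0 i
    simpa using this
  have h1 := dl_inertia hh.1 hx
  have h2 : dl v x x < 1 := by
    rw [dl_self]
    norm_num
  have h3 := dl_act_eq hR hF hcr hhx hx h1 h2
  rw [act_gal] at h3
  have h4 : dl v (fun i => h (act F x i)) (act F x) = 0 := by
    unfold dl
    rw [hh.2, map_zero, zero_div]
  rw [h4] at h3
  unfold dl at h3
  have h5 := mul_pos (nmf_pos v hhx) (nmf_pos v hx)
  rcases div_eq_zero_iff.mp h3.symm with h6 | h6
  · exact (map_eq_zero v).mp h6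
  · exact absurd h6 h5.ne'

end

end Pool.Agent.H627.LR
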