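import Mathlib
import Pool.Agent.H627.LR.Ctr

/-!
Orbits visiting finitely many residue discs.
-/

set_option autoImplicit false
set_option linter.unusedSectionVars false

namespace Pool.Agent.H627.LR

open NumberField Module MvPolynomial
open Pool.Agent.W238.Leh
open Pool.Agent.H627.LP
open Pool.Agent.H420R3 (mi nv TP ew TP_nonempty mem_TP exists_frac v_lt_one_iff v_fixed_le
  card_inertia nv_pos v_smul)
open scoped Pointwise

noncomputable section

variable {K : Type} [Field K] [NumberField K] {M : Type} [Field M] [NumberField M] [Algebra K M]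
variable {F : Fin (1 + 1) → MvPolynomial (Fin (1 + 1)) K} {q : ℕ} {v : FinitePlace M}

lemma iter_ne (hR : GR v F q) (hF : ∀ i, (F i).IsHomogeneous q) {u : Fin (1 + 1) → M}
    (hu : u ≠ 0) (n : ℕ) : (act F)^[n] u ≠ 0 := by
  induction n with
  | zero => exact hu
  | succ n ih =>
    rw [Function.iterate_succ_apply']
    exact act_ne hR hF ih

lemma dl_iter (hR : GR v F q) (hF : ∀ i, (F i).IsHomogeneous q) {x y : Fin (1 + 1) → M}
    (hx : x ≠ 0) (hy : y ≠ 0) (h : dl v x y < 1) (n : ℕ) :
    dl v ((act F)^[n] x) ((act F)^[n] y) < 1 := by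
  induction n with
  | zero => exact h
  | succ n ih =>
    rw [Function.iterate_succ_apply', Function.iterate_succ_apply']
    exact lt_of_le_of_lt (dl_act_le hR hF (iter_ne hR hF hx n) (iter_ne hR hF hy n)) ih

/-- periodicity of the residue discs -/
lemma per (hR : GR v F q) (hF : ∀ i, (F i).IsHomogeneous q) {u : Fin (1 + 1) → M}
    (hu : u ≠ 0) {i π : ℕ} (h : dl v ((act F)^[i] u) ((act F)^[i + π] u) < 1) {l : ℕ}
    (hl : i ≤ l) (s : ℕ) : dl v ((act F)^[l] u) ((act F)^[l + s * π] u) < 1 := by
  have hne := fun n => iter_ne hR hF hu n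
  have h1 : ∀ l, i ≤ l → dl v ((act F)^[l] u) ((act F)^[l + π] u) < 1 := by
    intro l hl
    obtain ⟨t, rfl⟩ := Nat.exists_eq_add_of_le hl
    have h2 := dl_iter hR hF (hne i) (hne (i + π)) h t
    rw [← Function.iterate_add_apply, ← Function.iterate_add_apply] at h2
    rw [add_comm i t]
    have h3 : t + i + π = t + (i + π) := by ring
    rw [h3]
    exact h2
  induction s with
  | zero =>
    rw [zero_mul, add_zero, dl_self]
    norm_num
  | succ s ih =>
    have h2 := h1 (l + s * π) (by omega)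
    have h3 : l + (s + 1) * π = l + s * π + π := by ring
    rw [h3]
    exact dl_lt_tri (hne _) (hne _) (hne _) ih h2

open Classical in
/-- the number of critical indices -/
def cnt (v : FinitePlace M) (F : Fin (1 + 1) → MvPolynomial (Fin (1 + 1)) K)
    (u : Fin (1 + 1) → M) (n : ℕ) : ℕ :=
  ((Finset.range n).filter fun j => Crit v F ((act F)^[j] u)).card

lemma cnt_succ_of (u : Fin (1 + 1) → M) (n : ℕ) (h : Crit v F ((act F)^[n] u)) :
    cnt v F u (n + 1) = cnt v F u n + 1 := by
  classical
  unfold cnt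
  rw [Finset.range_add_one, Finset.filter_insert, if_pos h, Finset.card_insert_of_notMem]
  simp

lemma cnt_succ_of_not (u : Fin (1 + 1) → M) (n : ℕ) (h : ¬ Crit v F ((act F)^[n] u)) :
    cnt v F u (n + 1) = cnt v F u n := by
  classical
  unfold cnt
  rw [Finset.range_add_one, Finset.filter_insert, if_neg h]

lemma cnt_mono (u : Fin (1 + 1) → M) {m n : ℕ} (h : m ≤ n) : cnt v F u m ≤ cnt v F u n := by
  classical
  unfold cnt
  apply Finset.card_le_card
  intro j hj
  rw [Finset.mem_filter, Finset.mem_range] at hj ⊢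
  exact ⟨by omega, hj.2⟩

/-- many critical indices -/
lemma cnt_lower (hR : GR v F q) (hF : ∀ i, (F i).IsHomogeneous q) {u : Fin (1 + 1) → M}
    (hu : u ≠ 0) {i π : ℕ} (hπ : 1 ≤ π)
    (h : dl v ((act F)^[i] u) ((act F)^[i + π] u) < 1) {j : ℕ} (hj : i ≤ j)
    (hcr : Crit v F ((act F)^[j] u)) (n : ℕ) : n ≤ cnt v F u (i + n * π) := by
  classical
  have hne := fun n => iter_ne hR hF hu n
  set l₀ := i + (j - i) % π with hl₀
  have hl₀i : i ≤ l₀ := Nat.le_add_right _ _
  have hj' : j = l₀ + (j - i) / π * π := by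
    have h1 := Nat.mod_add_div (j - i) π
    rw [hl₀, mul_comm ((j - i) / π) π]
    omega
  have hcr0 : Crit v F ((act F)^[l₀] u) := by
    have h2 := per hR hF hu h hl₀i ((j - i) / π)
    rw [← hj'] at h2
    exact hcr.congr (hne _) (hne _) (by rwa [dl_comm])
  have hcrs : ∀ s, Crit v F ((act F)^[l₀ + s * π] u) := fun s =>
    hcr0.congr (hne _) (hne _) (per hR hF hu h hl₀i s)
  unfold cnt
  calc n = (Finset.range n).card := (Finset.card_range n).symm
    _ = ((Finset.range n).image fun s => l₀ + s * π).card := by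
      rw [Finset.card_image_of_injective]
      intro a b hab
      have hab' : l₀ + a * π = l₀ + b * π := hab
      have := Nat.add_left_cancel hab'
      exact Nat.eq_of_mul_eq_mul_right (by omega) this
    _ ≤ _ := by
      apply Finset.card_le_card
      intro x hx
      obtain ⟨s, hs, rfl⟩ := Finset.mem_image.mp hx
      rw [Finset.mem_filter, Finset.mem_range]
      refine ⟨?_, hcrs s⟩
      have h3 : (j - i) % π < π := Nat.mod_lt _ (by omega)
      have h4 := Finset.mem_range.mp hs
      have h5 : (s + 1) * π ≤ n * π := Nat.mul_le_mul_right _ h4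
      have h6 : (s + 1) * π = s * π + π := by ring
      omega

variable [IsGalois K M] {P : Ideal (𝓞 K)} [hP : P.IsMaximal]

/-- closeness to points fixed by inertia, in terms of the number of critical indices -/
lemma cc_cnt (hP0 : P ≠ ⊥) (hv : v ∈ TP M P) (hR : GR v F q)
    (hF : ∀ i, (F i).IsHomogeneous q) {u : Fin (1 + 1) → M} (hu : u ≠ 0) {l : ℝ}
    (hl : 0 < l) (h : Cc K v l u) (n : ℕ) :
    Cc K v (min 1 (2 ^ cnt v F u n * l)) ((act F)^[n] u) := by
  have hne := fun n => iter_ne hR hF hu n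
  induction n with
  | zero =>
    refine h.mono ((min_le_right _ _).trans (le_of_eq ?_))
    unfold cnt
    simp
  | succ n ih =>
    rw [Function.iterate_succ_apply']
    set s := cnt v F u n with hs
    by_cases hcr : Crit v F ((act F)^[n] u)
    · rw [cnt_succ_of u n hcr]
      have hpos : 0 < min (1 : ℝ) (2 ^ s * l) := lt_min one_pos (by positivity)
      have h1 := ih.crit hP0 hv hR hF hpos (min_le_left _ _) (hne n) hcr
      refine h1.mono ?_
      rw [pow_succ]
      rcases le_total (1 : ℝ) (2 ^ s * l) with h2 | h2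
      · rw [min_eq_left h2]
        exact (min_le_left _ _).trans (by norm_num)
      · rw [min_eq_right h2]
        refine (min_le_right _ _).trans (le_of_eq ?_)
        ring
    · rw [cnt_succ_of_not u n hcr]
      exact ih.step hR hF (hne n)

/-- **closeness at high levels** -/
theorem levels (hP0 : P ≠ ⊥) (hv : v ∈ TP M P) (hR : GR v F q)
    (hF : ∀ i, (F i).IsHomogeneous q) {u : Fin (1 + 1) → M} (hu : u ≠ 0) {B n₀ T D : ℕ}
    (hper : ∃ i i' : ℕ, i < i' ∧ i' ≤ B ∧ dl v ((act F)^[i] u) ((act F)^[i'] u) < 1)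
    (hn₀ : Nat.card ((mi v).inertia Gal(M/K)) ≤ 2 ^ n₀ * Nat.card (St K v u))
    (hD : Nat.card ((mi v).inertia Gal(M/K)) ≤ D * Nat.card (St K v ((act F)^[T] u)))
    {j : ℕ} (hj : B * (n₀ + 1) ≤ j) (hjT : j ≤ T) :
    Cc K v (1 / (D : ℝ)) ((act F)^[j] u) := by
  have hne := fun n => iter_ne hR hF hu n
  set I := (mi v).inertia Gal(M/K) with hI
  have hIpos : (0 : ℝ) < Nat.card I := by exact_mod_cast Nat.card_pos
  have hD1 : 1 ≤ D := by
    rcases Nat.eq_zero_or_pos D with h0 | h0
    · rw [h0, zero_mul] at hD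
      have : 0 < Nat.card I := Nat.card_pos
      omega
    · exact h0
  have hD1' : (1 : ℝ) ≤ D := by exact_mod_cast hD1
  have hDle : 1 / (D : ℝ) ≤ 1 := by
    rw [div_le_one (by linarith)]
    exact hD1'
  obtain ⟨i, i', hii', hi'B, hdl⟩ := hper
  obtain ⟨π, rfl⟩ := Nat.exists_eq_add_of_lt hii'
  have hdl' : dl v ((act F)^[i] u) ((act F)^[i + (π + 1)] u) < 1 := hdl
  set a := B * (n₀ + 1) with ha
  have hia : i ≤ a := by
    have : B ≤ a := by
      rw [ha]
      exact Nat.le_mul_of_pos_right _ (by omega)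
    omega
  by_cases hex : ∃ j', a ≤ j' ∧ Crit v F ((act F)^[j'] u)
  · obtain ⟨j', hj', hcr⟩ := hex
    have h1 := cnt_lower hR hF hu (by omega : 1 ≤ π + 1) hdl' (by omega : i ≤ j') hcr n₀
    have h2 : i + n₀ * (π + 1) ≤ a := by
      have h3 : n₀ * (π + 1) ≤ n₀ * B := Nat.mul_le_mul_left _ (by omega)
      rw [ha]
      have h4 : B * (n₀ + 1) = n₀ * B + B := by ring
      omega
    have h3 : n₀ ≤ cnt v F u a := h1.trans (cnt_mono u h2)
    have hSt : (0 : ℝ) < Nat.card (St K v u) := by exact_mod_cast Nat.card_pos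
    have h4 := cc_cnt hP0 hv hR hF hu (div_pos hSt hIpos) (cc_St hP0 hv hu) a
    have h5 : Cc K v 1 ((act F)^[a] u) := by
      refine h4.mono (le_min le_rfl ?_)
      have h6 : (2 : ℝ) ^ n₀ ≤ 2 ^ cnt v F u a := pow_le_pow_right₀ (by norm_num) h3
      have h7 : (Nat.card I : ℝ) ≤ 2 ^ n₀ * Nat.card (St K v u) := by exact_mod_cast hn₀
      rw [← mul_div_assoc, le_div_iff₀ hIpos, one_mul]
      refine h7.trans ?_
      gcongr
    have h6 : ∀ t, Cc K v 1 ((act F)^[a + t] u) := by
      intro t
      induction t with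
      | zero => exact h5
      | succ t ih =>
        rw [← add_assoc, Function.iterate_succ_apply']
        exact ih.step hR hF (hne _)
    obtain ⟨t, rfl⟩ := Nat.exists_eq_add_of_le hj
    exact (h6 t).mono hDle
  · push Not at hex
    have h1 : ∀ t, a ≤ t → ∀ s, St K v ((act F)^[t + s] u) ≤ St K v ((act F)^[t] u) := by
      intro t ht s
      induction s with
      | zero => exact le_rfl
      | succ s ih =>
        rw [← add_assoc, Function.iterate_succ_apply']
        exact (St_act hR hF (hne _) (hex _ (by omega))).trans ih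
    obtain ⟨s, hs⟩ := Nat.exists_eq_add_of_le hjT
    have h2 := h1 j hj s
    rw [← hs] at h2
    have h3 : Nat.card (St K v ((act F)^[T] u)) ≤ Nat.card (St K v ((act F)^[j] u)) :=
      Nat.card_le_card_of_injective (Subgroup.inclusion h2) (Subgroup.inclusion_injective h2)
    refine (cc_St hP0 hv (hne j)).mono ?_
    rw [div_le_div_iff₀ (by linarith) hIpos, one_mul]
    have h4 : Nat.card I ≤ D * Nat.card (St K v ((act F)^[j] u)) :=
      hD.trans (Nat.mul_le_mul_left _ h3)
    have h5 : (Nat.card I : ℝ) ≤ D * Nat.card (St K v ((act F)^[j] u)) := by exact_mod_cast h4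
    linarith

end

end Pool.Agent.H627.LR
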