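import Mathlib
import Pool.Agent.H627.LR.Cyc
import Pool.Agent.H627.LP.Fin

/-!
Residue classes, and their number for points with small residue degrees.
-/

set_option autoImplicit false
set_option linter.unusedSectionVars false

namespace Pool.Agent.H627.LR

open NumberField Module MvPolynomial
open Pool.Agent.W238.Leh
open Pool.Agent.H627.LP
open Pool.Agent.H420R3 (mi nv TP ew TP_nonempty mem_TP exists_frac v_lt_one_iff v_fixed_le
  card_inertia nv_pos v_smul sum_ew ew_pos)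
open scoped Pointwise

noncomputable section

section Res

variable {M : Type} [Field M] [NumberField M] (v : FinitePlace M)

lemma exists_int {a : M} (ha : v a ≤ 1) : ∃ b : 𝓞 M, v (a - b) < 1 := by
  obtain ⟨x, y, hy, rfl⟩ := exists_frac v ha
  have hmax : (mi v).IsMaximal := inferInstance
  obtain ⟨y', hy'⟩ : ∃ y', y * y' - 1 ∈ mi v := by
    let : Field (𝓞 M ⧸ mi v) := Ideal.Quotient.field (mi v)
    have h0 : Ideal.Quotient.mk (mi v) y ≠ 0 := by
      rw [Ne, Ideal.Quotient.eq_zero_iff_mem]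
      exact hy
    obtain ⟨z, hz⟩ := Ideal.Quotient.mk_surjective (Ideal.Quotient.mk (mi v) y)⁻¹
    refine ⟨z, ?_⟩
    rw [← Ideal.Quotient.eq_zero_iff_mem, map_sub, map_mul, hz, map_one, mul_inv_cancel₀ h0,
      sub_self]
  have hvy : v (y : M) = 1 := H420R3.v_eq_one_of_notMem v hy
  have hy0 : (y : M) ≠ 0 := by
    intro h
    rw [h, map_zero] at hvy
    norm_num at hvy
  refine ⟨x * y', ?_⟩
  have h1 : (x : M) / (y : M) - ((x * y' : 𝓞 M) : M) =
      -(((x * (y * y' - 1) : 𝓞 M) : M) / (y : M)) := by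
    push_cast
    field_simp
    ring
  rw [h1, v_neg, map_div₀, hvy, div_one, v_lt_one_iff]
  exact (mi v).mul_mem_left _ hy'

open Classical in
/-- the residue -/
def res (a : M) : 𝓞 M ⧸ mi v :=
  if h : v a ≤ 1 then Ideal.Quotient.mk (mi v) (exists_int v h).choose else 0

lemma res_spec {a : M} (ha : v a ≤ 1) :
    ∃ b : 𝓞 M, v (a - b) < 1 ∧ res v a = Ideal.Quotient.mk (mi v) b := by
  refine ⟨(exists_int v ha).choose, (exists_int v ha).choose_spec, ?_⟩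
  unfold res
  rw [dif_pos ha]

lemma res_eq {a a' : M} (ha : v a ≤ 1) (ha' : v a' ≤ 1) (h : res v a = res v a') :
    v (a - a') < 1 := by
  obtain ⟨b, hb, hb'⟩ := res_spec v ha
  obtain ⟨c, hc, hc'⟩ := res_spec v ha'
  rw [hb', hc', Ideal.Quotient.eq, ← v_lt_one_iff] at h
  have h1 : a - a' = (a - b) + (((b - c : 𝓞 M) : M) - (a' - c)) := by
    push_cast
    ring
  rw [h1]
  exact lt_of_le_of_lt (FinitePlace.add_le v _ _)
    (max_lt hb (lt_of_le_of_lt (v_sub_le v _ _) (max_lt h hc)))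

lemma res_pow {a : M} (ha : v a ≤ 1) {Q : ℕ} (hQ : v (a ^ Q - a) < 1) :
    res v a ^ Q = res v a := by
  obtain ⟨b, hb, hb'⟩ := res_spec v ha
  rw [hb', ← map_pow, Ideal.Quotient.eq, ← v_lt_one_iff]
  push_cast
  have h1 : (b : M) ^ Q - (b : M) = ((a ^ Q - a) + (a - b)) - (a ^ Q - (b : M) ^ Q) := by ring
  rw [h1]
  have h2 := v_pow_sub v (v_nonneg v _) ha (H420R3.v_le_one v b) le_rfl Q
  exact lt_of_le_of_lt (v_sub_le v _ _) (max_lt (lt_of_le_of_lt (FinitePlace.add_le v _ _)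
    (max_lt hQ hb)) (lt_of_le_of_lt h2 hb))

/-- the finite set of residues -/
lemma exists_set (Q : ℕ) (hQ : 1 < Q) :
    ∃ S : Finset (𝓞 M ⧸ mi v), S.card ≤ Q ∧ ∀ r, r ^ Q = r → r ∈ S := by
  classical
  let : Field (𝓞 M ⧸ mi v) := Ideal.Quotient.field (mi v)
  refine ⟨(Polynomial.X ^ Q - Polynomial.X : Polynomial (𝓞 M ⧸ mi v)).roots.toFinset, ?_, ?_⟩
  · refine (Multiset.toFinset_card_le _).trans ((Polynomial.card_roots' _).trans (le_of_eq ?_))
    exact FiniteField.X_pow_card_sub_X_natDegree_eq _ hQ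
  · intro r hr
    rw [Multiset.mem_toFinset, Polynomial.mem_roots
      (FiniteField.X_pow_card_sub_X_ne_zero _ hQ), Polynomial.IsRoot]
    simp [hr]

/-- the coordinate of maximal absolute value -/
def ix (x : Fin (1 + 1) → M) : Fin (1 + 1) := (exists_nmf (v := v) x).choose

lemma ix_spec (x : Fin (1 + 1) → M) : v (x (ix v x)) = nmf v x :=
  (exists_nmf (v := v) x).choose_spec

/-- the residue class of a point -/
def cls (x : Fin (1 + 1) → M) : Fin (1 + 1) → 𝓞 M ⧸ mi v := fun j => res v (nr (ix v x) x j)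

lemma dl_of_cls {x y : Fin (1 + 1) → M} (hx : x ≠ 0) (hy : y ≠ 0) (h : cls v x = cls v y) :
    dl v x y < 1 := by
  set w := nr (ix v x) x with hw
  set w' := nr (ix v y) y with hw'
  have hw1 : nmf v w = 1 := nmf_nr hx (ix_spec v x)
  have hw1' : nmf v w' = 1 := nmf_nr hy (ix_spec v y)
  have h1 : ∀ j, v (w j - w' j) < 1 := fun j =>
    res_eq v ((le_nmf v w j).trans hw1.le) ((le_nmf v w' j).trans hw1'.le) (congrFun h j)
  set η := max (v (w 0 - w' 0)) (v (w 1 - w' 1)) with hη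
  have hη1 : η < 1 := max_lt (h1 0) (h1 1)
  have hCl : Cl v η w w' := by
    refine ⟨hw1, hw1', fun i => ?_⟩
    fin_cases i
    · exact le_max_left _ _
    · exact le_max_right _ _
  have h2 : dl v x y = dl v w w' :=
    (dl_smul (inv_ne_zero (ne_zero_of_coord hx (ix_spec v x)))
      (inv_ne_zero (ne_zero_of_coord hy (ix_spec v y))) x y).symm
  rw [h2]
  unfold dl
  rw [hw1, hw1', mul_one, div_one]
  exact lt_of_le_of_lt (hCl.wedge 0 1) hη1

end Res

section Transport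

variable {K : Type} [Field K] [NumberField K] {M : Type} [Field M] [NumberField M] [Algebra K M]

lemma transport_le {v w : FinitePlace M} {σ : Gal(M/K)} (h : mi v = σ • mi w) {y : M}
    (hy : w y ≤ 1) : v (σ y) ≤ 1 := by
  obtain ⟨a, b, hb, rfl⟩ := exists_frac w hy
  have hb' : σ • b ∉ mi v := by
    rw [h, Ideal.smul_mem_pointwise_smul_iff]
    exact hb
  have h1 : v (σ (b : M)) = 1 := H420R3.v_eq_one_of_notMem v hb'
  rw [map_div₀, map_div₀, h1, div_one]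
  exact H420R3.v_le_one v (σ • a)

lemma transport_lt {v w : FinitePlace M} {σ : Gal(M/K)} (h : mi v = σ • mi w) {y : M}
    (hy : w y < 1) : v (σ y) < 1 := by
  obtain ⟨a, b, hb, rfl⟩ := exists_frac w hy.le
  have hb' : σ • b ∉ mi v := by
    rw [h, Ideal.smul_mem_pointwise_smul_iff]
    exact hb
  have h1 : v (σ (b : M)) = 1 := H420R3.v_eq_one_of_notMem v hb'
  rw [map_div₀, map_div₀, h1, div_one]
  have h3 : a ∈ mi w := by
    have h4 : w (b : M) = 1 := H420R3.v_eq_one_of_notMem w hb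
    rw [map_div₀, h4, div_one, v_lt_one_iff] at hy
    exact hy
  have h5 : σ • a ∈ mi v := by
    rw [h, Ideal.smul_mem_pointwise_smul_iff]
    exact h3
  exact (v_lt_one_iff v (σ • a)).mpr h5

end Transport

section Good

variable {K L M : Type} [Field K] [NumberField K] [Field L] [NumberField L] [Field M]
  [NumberField M] [Algebra K L] [Algebra K M] [Algebra L M] [IsScalarTower K L M]
  [IsGalois K M] {P : Ideal (𝓞 K)} [hP : P.IsMaximal]

/-- the residue field of the conjugate of `L` is small -/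
def GA (L : Type) [Field L] {M : Type} [Field M] [NumberField M] {K : Type} [Field K]
    [Algebra K M] [Algebra L M] (Q : ℕ) (v : FinitePlace M) (σ : Gal(M/K)) : Prop :=
  ∀ y : L, v (σ (algebraMap L M y)) ≤ 1 →
    v ((σ (algebraMap L M y)) ^ Q - σ (algebraMap L M y)) < 1

lemma ga_of (hP0 : P ≠ ⊥) {v w : FinitePlace M} (hw : w ∈ TP M P) {σ : Gal(M/K)}
    (h : mi v = σ • mi w) {m : ℕ}
    (hm : ((mi w).under (𝓞 L)).inertiaDeg (𝓞 K) ≤ m) :
    GA L (P.absNorm ^ m.factorial) v σ := by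
  intro y hy
  have hGL : IsGalois L M := IsGalois.tower_top_of_isGalois K L M
  have h' : mi w = σ⁻¹ • mi v := by rw [h, inv_smul_smul]
  have hlow := H420R3.liesOver_of_mem hP0 hw
  set 𝔓 : Ideal (𝓞 L) := (mi w).under (𝓞 L) with h𝔓
  have h𝔓m : 𝔓.IsMaximal := Ideal.isMaximal_comap_of_isIntegral_of_isMaximal (mi w)
  have hlo1 : (mi w).LiesOver 𝔓 := ⟨rfl⟩
  have h𝔓P : 𝔓.under (𝓞 K) = P := by
    rw [h𝔓, Ideal.under_under]
    exact hlow.over.symm
  have hlo2 : 𝔓.LiesOver P := ⟨h𝔓P.symm⟩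
  have h𝔓0 : 𝔓 ≠ ⊥ := Ideal.ne_bot_of_liesOver_of_ne_bot hP0 𝔓
  have hwL : w ∈ TP M 𝔓 := (mem_TP h𝔓0).mpr ⟨inferInstance, hlo1⟩
  have hwy : w (algebraMap L M y) ≤ 1 := by
    have h1 := transport_le h' hy
    rwa [← AlgEquiv.mul_apply, inv_mul_cancel] at h1
  -- the Frobenius over `L`
  have hf0 : 0 < 𝔓.inertiaDeg (𝓞 K) := 𝔓.inertiaDeg_pos (𝓞 K)
  obtain ⟨k, hk⟩ := Nat.dvd_factorial hf0 hm
  have hQ : 𝔓.absNorm ^ k = P.absNorm ^ m.factorial := by
    have h3 := Ideal.absNorm_eq_pow_inertiaDeg'_of_liesOver 𝔓 P inferInstance hP0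
    rw [Ideal.inertiaDeg'_eq_inertiaDeg] at h3
    rw [h3, ← pow_mul, ← hk]
  obtain ⟨τ, hτ1, hτ2⟩ := H420R3.exists_frob (K := L) h𝔓0 hwL k
  have hfr : FrobAt w τ (𝔓.absNorm ^ k) := ⟨hτ1, hτ2⟩
  have h1 := hfr.lt hwy
  rw [hQ, τ.commutes y] at h1
  have h2 : w ((algebraMap L M y) ^ (P.absNorm ^ m.factorial) - algebraMap L M y) < 1 := by
    rw [← v_neg, neg_sub]
    exact h1
  have h3 := transport_lt h h2
  rwa [map_sub, map_pow] at h3

/-- residue classes of points with coordinates in the conjugate of `L` -/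
lemma cls_mem {v : FinitePlace M} {σ : Gal(M/K)} {Q : ℕ} (hG : GA L Q v σ)
    {S : Finset (𝓞 M ⧸ mi v)} (hS : ∀ r, r ^ Q = r → r ∈ S) {x : Fin (1 + 1) → L}
    {y : Fin (1 + 1) → M} (hy0 : y ≠ 0) (hy : y = fun i => σ (algebraMap L M (x i))) :
    cls v y ∈ Fintype.piFinset fun _ => S := by
  rw [Fintype.mem_piFinset]
  intro j
  apply hS
  have h1 : nmf v (nr (ix v y) y) = 1 := nmf_nr hy0 (ix_spec v y)
  have h2 : v (nr (ix v y) y j) ≤ 1 := (le_nmf v _ j).trans h1.le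
  have h3 : nr (ix v y) y j = σ (algebraMap L M (x j / x (ix v y))) := by
    unfold nr
    simp only [Pi.smul_apply, smul_eq_mul]
    rw [hy, map_div₀, map_div₀, mul_comm, div_eq_mul_inv]
  apply res_pow v h2
  rw [h3] at h2 ⊢
  exact hG _ h2

/-- the number of good places -/
theorem sum_good (hP0 : P ≠ ⊥) (T : Finset (Ideal (𝓞 L)))
    (hT : ∀ 𝔓 ∈ T, 𝔓.IsPrime ∧ 𝔓.under (𝓞 K) = P) {B : ℕ}
    (hTB : finrank K L ≤ B * ∑ 𝔓 ∈ T, 𝔓.ramificationIdx (𝓞 K) * 𝔓.inertiaDeg (𝓞 K))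
    (σ : Gal(M/K)) :
    ∃ G : Finset (FinitePlace M), G ⊆ TP M P ∧
      (∀ v ∈ G, ∃ w ∈ TP M P, mi v = σ • mi w ∧ (mi w).under (𝓞 L) ∈ T) ∧
      ∑ v ∈ TP M P, ew K v ≤ B * ∑ v ∈ G, ew K v := by
  classical
  have hGL : IsGalois L M := IsGalois.tower_top_of_isGalois K L M
  -- the good places for the identity
  set G₁ := (TP M P).filter fun w => (mi w).under (𝓞 L) ∈ T with hG₁
  have hlog := log_absNorm_pos (K := K) hP0
  -- the sum over `G₁`
  have hsum : ∑ w ∈ G₁, (mi w).ramificationIdx (𝓞 K) * (mi w).inertiaDeg (𝓞 K) =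
      (∑ 𝔓 ∈ T, 𝔓.ramificationIdx (𝓞 K) * 𝔓.inertiaDeg (𝓞 K)) * finrank L M := by
    have hmaps : ∀ w ∈ G₁, (mi w).under (𝓞 L) ∈ T := fun w hw => (Finset.mem_filter.mp hw).2
    rw [← Finset.sum_fiberwise_of_maps_to hmaps, Finset.sum_mul]
    refine Finset.sum_congr rfl fun 𝔓 h𝔓 => ?_
    obtain ⟨h𝔓p, h𝔓P⟩ := hT 𝔓 h𝔓
    have hlo : 𝔓.LiesOver P := ⟨h𝔓P.symm⟩
    have h𝔓0 : 𝔓 ≠ ⊥ := Ideal.ne_bot_of_liesOver_of_ne_bot hP0 𝔓
    have h𝔓m : 𝔓.IsMaximal := h𝔓p.isMaximal h𝔓0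
    have h1 := sum_ef (K := L) (M := M) (P := 𝔓) h𝔓0
    rw [← h1, Finset.mul_sum]
    have hset : (G₁.filter fun w => (mi w).under (𝓞 L) = 𝔓) = TP M 𝔓 := by
      ext w
      rw [Finset.mem_filter, hG₁, Finset.mem_filter, mem_TP hP0, mem_TP h𝔓0]
      constructor
      · rintro ⟨⟨⟨hp, _⟩, _⟩, h2⟩
        exact ⟨hp, ⟨h2.symm⟩⟩
      · rintro ⟨hp, hlo'⟩
        have h2 : (mi w).under (𝓞 L) = 𝔓 := hlo'.over.symm
        refine ⟨⟨⟨hp, ⟨?_⟩⟩, by rw [h2]; exact h𝔓⟩, h2⟩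
        rw [← h𝔓P, ← h2, Ideal.under_under]
    rw [hset]
    refine Finset.sum_congr rfl fun w hw => ?_
    have hlow : (mi w).LiesOver 𝔓 := ((mem_TP h𝔓0).mp hw).2
    have h2 : (mi w).ramificationIdx (𝓞 K) =
        𝔓.ramificationIdx (𝓞 K) * (mi w).ramificationIdx (𝓞 L) :=
      Ideal.ramificationIdx_tower (R := 𝓞 K) 𝔓 (mi w)
    have h3 : (mi w).inertiaDeg (𝓞 K) =
        𝔓.inertiaDeg (𝓞 K) * (mi w).inertiaDeg (𝓞 L) :=
      Ideal.inertiaDeg_tower (R := 𝓞 K) 𝔓 (mi w)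
    rw [h2, h3]
    ring
  -- transport by `σ`
  have hex : ∀ w, w ∈ TP M P → ∃ v ∈ TP M P, mi v = σ • mi w := fun w hw =>
    exists_place_smul hP0 hw σ
  obtain ⟨v₀, _⟩ := TP_nonempty (M := M) (P := P) hP0
  have hnon : Nonempty (FinitePlace M) := ⟨v₀⟩
  choose! f hfT hf using hex
  have hfinj : ∀ a ∈ TP M P, ∀ b ∈ TP M P, f a = f b → a = b := by
    intro a ha b hb hab
    have h1 := hf a ha
    rw [hab, hf b hb] at h1
    have h2 : mi b = mi a := smul_left_cancel σ h1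
    apply FinitePlace.maximalIdeal_injective
    exact (IsDedekindDomain.HeightOneSpectrum.ext h2).symm
  have hG₁T : G₁ ⊆ TP M P := Finset.filter_subset _ _
  refine ⟨G₁.image f, ?_, ?_, ?_⟩
  · intro v hv
    obtain ⟨w, hw, rfl⟩ := Finset.mem_image.mp hv
    exact hfT w (hG₁T hw)
  · intro v hv
    obtain ⟨w, hw, rfl⟩ := Finset.mem_image.mp hv
    exact ⟨w, hG₁T hw, hf w (hG₁T hw), (Finset.mem_filter.mp hw).2⟩
  · rw [Finset.sum_image fun a ha b hb h => hfinj a (hG₁T ha) b (hG₁T hb) h]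
    have hewc : ∀ v ∈ TP M P, ∀ w ∈ TP M P, ew K v = ew K w := by
      intro v hv w hw
      have hlov := H420R3.liesOver_of_mem hP0 hv
      have hlow := H420R3.liesOver_of_mem hP0 hw
      rw [ew_eq hP0 hv, ew_eq hP0 hw,
        ← Ideal.ramificationIdxIn_eq_ramificationIdx P (mi v) Gal(M/K),
        ← Ideal.ramificationIdxIn_eq_ramificationIdx P (mi w) Gal(M/K),
        ← Ideal.inertiaDegIn_eq_inertiaDeg P (mi v) Gal(M/K),
        ← Ideal.inertiaDegIn_eq_inertiaDeg P (mi w) Gal(M/K)]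
    have h1 : ∑ w ∈ G₁, ew K (f w) = ∑ w ∈ G₁, ew K w :=
      Finset.sum_congr rfl fun w hw => hewc _ (hfT w (hG₁T hw)) _ (hG₁T hw)
    rw [h1, Finset.sum_congr rfl fun w hw => ew_eq hP0 (hG₁T hw), ← Finset.sum_mul, sum_ew hP0]
    rw [← mul_assoc]
    refine mul_le_mul_of_nonneg_right ?_ hlog.le
    have h2 : (finrank K M : ℕ) ≤ B *
        ∑ w ∈ G₁, (mi w).ramificationIdx (𝓞 K) * (mi w).inertiaDeg (𝓞 K) := by
      rw [hsum, ← finrank_mul_finrank K L M, ← mul_assoc]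
      exact Nat.mul_le_mul_right _ hTB
    have h3 : ((finrank K M : ℕ) : ℝ) ≤ ((B *
        ∑ w ∈ G₁, (mi w).ramificationIdx (𝓞 K) * (mi w).inertiaDeg (𝓞 K) : ℕ) : ℝ) := by
      exact_mod_cast h2
    refine h3.trans (le_of_eq ?_)
    push_cast
    rfl

end Good

end

end Pool.Agent.H627.LR
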