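import Mathlib
import Pool.Agent.H627.LR.Gr
import Pool.Agent.H627.LP.Asm

/-!
Integral forms with good reduction at a prime.
-/

set_option autoImplicit false
set_option linter.unusedSectionVars false

namespace Pool.Agent.H627.LR

open NumberField Module MvPolynomial Filter Topology
open Pool.Agent.W238.Leh
open Pool.Agent.H627.LP hiding det_ineq det_ineq' local_gain
open Pool.Agent.H420R3 (mi nv TP ew TP_nonempty mem_TP lP lP_pos sum_ew ew_pos)
open scoped Pointwise

noncomputable section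

variable {K : Type} [Field K] [NumberField K] {N : ℕ}

/-- all coefficients are algebraic integers of `K` -/
def IC (p : MvPolynomial (Fin (N + 1)) K) : Prop := ∀ m, ∃ c : 𝓞 K, p.coeff m = (c : K)

/-- integral forms with good reduction at `P` -/
structure GoodK (P : Ideal (𝓞 K)) (H : Fin (N + 1) → MvPolynomial (Fin (N + 1)) K) (q : ℕ) :
    Prop where
  hom : ∀ i, (H i).IsHomogeneous q
  int : ∀ i, IC (H i)
  red : ∃ (n : ℕ) (b : 𝓞 K) (U : Fin (N + 1) → Fin (N + 1) → MvPolynomial (Fin (N + 1)) K),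
    b ∉ P ∧ (∀ j i, IC (U j i)) ∧ ∀ j, C (b : K) * X j ^ n = ∑ i, U j i * H i

variable {P : Ideal (𝓞 K)} [hP : P.IsMaximal]
variable {H : Fin (N + 1) → MvPolynomial (Fin (N + 1)) K} {q : ℕ}

section Ext

variable {M : Type} [Field M] [NumberField M] [Algebra K M]

lemma IC.v_le {p : MvPolynomial (Fin (N + 1)) K} (h : IC p) (v : FinitePlace M)
    (m : Fin (N + 1) →₀ ℕ) : v (algebraMap K M (p.coeff m)) ≤ 1 := by
  obtain ⟨c, hc⟩ := h m
  rw [hc]
  exact H420R3.v_le_one v (algebraMap (𝓞 K) (𝓞 M) c)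

lemma GoodK.gr (h : GoodK P H q) (hP0 : P ≠ ⊥) (hq : 1 ≤ q) {v : FinitePlace M}
    (hv : v ∈ TP M P) : GR v H q := by
  refine ⟨fun i m => ?_, fun x => ?_⟩
  · rw [coeff_map]
    exact (h.int i).v_le v m
  · obtain ⟨n, b, U, hb, hU, hred⟩ := h.red
    have hlo := H420R3.liesOver_of_mem hP0 hv
    have hvb : v (algebraMap K M (b : K)) = 1 := by
      have hb' : algebraMap (𝓞 K) (𝓞 M) b ∉ mi v := by
        intro hmem
        apply hb
        rw [hlo.over]
        exact hmem
      exact H420R3.v_eq_one_of_notMem v hb'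
    have key : ∀ w : Fin (N + 1) → M, nmf v w = 1 → nmf v (act H w) = 1 := by
      intro w hw
      have hw' : ∀ i, v (w i) ≤ 1 := fun i => (le_nmf v w i).trans hw.le
      apply le_antisymm
      · exact nmf_le fun i => eval_small v zero_le_one (fun m => (h.int i).v_le v m) hw'
      · obtain ⟨j, hj⟩ := exists_nmf (v := v) w
        have h1 := congrArg (aeval w) (hred j)
        rw [map_mul, aeval_C, map_pow, aeval_X, map_sum] at h1
        have h2 : v (algebraMap K M (b : K) * w j ^ n) = 1 := by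
          rw [map_mul, hvb, map_pow, hj, hw, one_pow, one_mul]
        rw [← h2, h1]
        refine v_sum_le v _ _ (nmf_nonneg v _) fun i _ => ?_
        rw [map_mul, map_mul]
        calc v (aeval w (U j i)) * v (aeval w (H i)) ≤ 1 * nmf v (act H w) :=
              mul_le_mul (eval_small v zero_le_one (fun m => (hU j i).v_le v m) hw')
                (le_nmf v (act H w) i) (v_nonneg v _) zero_le_one
          _ = _ := one_mul _
    by_cases hx : x = 0
    · have h1 : act H x = (0 : M) ^ q • act H (0 : Fin (N + 1) → M) := by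
        rw [hx, ← act_smul h.hom, zero_smul]
      have h2 : nmf v (0 : Fin (N + 1) → M) = 0 := by
        apply le_antisymm
        · exact nmf_le fun i => by simp
        · exact nmf_nonneg _ _
      rw [h1, zero_pow (by omega), zero_smul, h2, hx, h2, zero_pow (by omega)]
    · obtain ⟨i₀, hi₀⟩ := exists_nmf (v := v) x
      have hpos := nmf_pos v hx
      have h1 : nmf v ((x i₀)⁻¹ • x) = 1 := by
        rw [nmf_smul, map_inv₀, hi₀, inv_mul_cancel₀ hpos.ne']
      have h2 := key _ h1
      rw [act_smul h.hom, nmf_smul, map_pow, map_inv₀, hi₀, inv_pow] at h2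
      have h3 : 0 < nmf v x ^ q := by positivity
      field_simp at h2
      exact h2

end Ext

lemma GoodK.mor (h : GoodK P H q) (z : Fin (N + 1) → AlgebraicClosure K)
    (hz : ∀ i, aeval z (H i) = 0) : z = 0 := by
  obtain ⟨n, b, U, hb, hU, hred⟩ := h.red
  have hb0 : algebraMap K (AlgebraicClosure K) (b : K) ≠ 0 := by
    rw [Ne, FaithfulSMul.algebraMap_eq_zero_iff, RingOfIntegers.coe_eq_zero_iff]
    rintro rfl
    exact hb P.zero_mem
  funext j
  have h1 := congrArg (aeval z) (hred j)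
  rw [map_mul, aeval_C, map_pow, aeval_X, map_sum] at h1
  have h2 : ∑ i, aeval z (U j i * H i) = 0 := by
    refine Finset.sum_eq_zero fun i _ => ?_
    rw [map_mul, hz i, mul_zero]
  rw [h2] at h1
  exact eq_zero_of_pow_eq_zero ((mul_eq_zero.mp h1).resolve_left hb0)

/-- good reduction at `v` of a tuple of forms -/
def GoodRed (v : FinitePlace K) (F : Fin (N + 1) → MvPolynomial (Fin (N + 1)) K) : Prop :=
  (∀ i m, v ((F i).coeff m) ≤ 1) ∧
  ∃ (n : ℕ) (U : Fin (N + 1) → Fin (N + 1) → MvPolynomial (Fin (N + 1)) K),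
    (∀ j i m, v ((U j i).coeff m) ≤ 1) ∧ ∀ j, X j ^ n = ∑ i, U j i * F i

lemma exists_den (v : FinitePlace K) (G : Fin (N + 1) → MvPolynomial (Fin (N + 1)) K)
    (hint : ∀ i m, v ((G i).coeff m) ≤ 1) : ∃ b : 𝓞 K, b ∉ mi v ∧ ∀ i, IC (C (b : K) * G i) := by
  obtain ⟨b, Gi, hb, hGi⟩ := exists_int_forms v G hint
  refine ⟨b, hb, fun i m => ⟨(Gi i).coeff m, ?_⟩⟩
  rw [← hGi i, coeff_map]

lemma IC.mul_left {p : MvPolynomial (Fin (N + 1)) K} (h : IC p) (c : 𝓞 K) :
    IC (C (c : K) * p) := by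
  intro m
  obtain ⟨d, hd⟩ := h m
  refine ⟨c * d, ?_⟩
  rw [coeff_C_mul, hd]
  push_cast
  rfl

/-- integral models -/
lemma GoodRed.exists_model {v : FinitePlace K}
    {F : Fin (N + 1) → MvPolynomial (Fin (N + 1)) K} (hF : ∀ i, (F i).IsHomogeneous q)
    (h : GoodRed v F) : ∃ b : 𝓞 K, b ≠ 0 ∧ GoodK (mi v) (fun i => C (b : K) * F i) q := by
  classical
  obtain ⟨hint, n, U, hU, hred⟩ := h
  obtain ⟨b, hb, hbI⟩ := exists_den v F hint
  choose c hc hcI using fun j => exists_den v (U j) (hU j)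
  set d : 𝓞 K := ∏ j, c j with hd
  have hdm : d ∉ mi v := by
    rw [hd, Ideal.IsPrime.prod_mem_iff]
    push Not
    exact fun j _ => hc j
  refine ⟨b, ?_, ?_, hbI, ?_⟩
  · rintro rfl
    exact hb (Submodule.zero_mem _)
  · intro i
    have h7 := (isHomogeneous_C (Fin (N + 1)) (b : K)).mul (hF i)
    rwa [zero_add] at h7
  · refine ⟨n, b * d, fun j i => C (d : K) * U j i, ?_, ?_, ?_⟩
    · have hprime : (mi v).IsPrime := inferInstance
      intro hmem
      rcases hprime.mem_or_mem hmem with h1 | h1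
      · exact hb h1
      · exact hdm h1
    · intro j i
      have h1 : d = (∏ j' ∈ Finset.univ.erase j, c j') * c j := by
        rw [hd, Finset.prod_erase_mul _ _ (Finset.mem_univ j)]
      have h2 := (hcI j i).mul_left (∏ j' ∈ Finset.univ.erase j, c j')
      rw [← mul_assoc, ← C_mul] at h2
      rw [h1]
      push_cast at h2 ⊢
      exact h2
    · intro j
      rw [hred j]
      push_cast
      rw [Finset.mul_sum]
      refine Finset.sum_congr rfl fun i _ => ?_
      rw [C_mul]
      ring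

section Scale

variable {L : Type} [Field L] [NumberField L] [Algebra K L]

/-- transfer of wandering points and canonical heights -/
lemma transfer_scale {b : 𝓞 K} (hb : b ≠ 0)
    {F : Fin (N + 1) → MvPolynomial (Fin (N + 1)) K} (hF : ∀ i, (F i).IsHomogeneous q)
    (hq : 2 ≤ q) {A : ℝ} {a : ℕ} (hB : Bds (fun i => C (b : K) * F i) q A a)
    {x : Fin (N + 1) → L} (hx : x ≠ 0) :
    (Wnd F x → Wnd (fun i => C (b : K) * F i) x) ∧
    Tendsto (fun n : ℕ => Height.logHeight ((act F)^[n] x) /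
        ((finrank ℚ L : ℝ) * (q : ℝ) ^ n)) atTop
      (𝓝 (canH (fun i => C (b : K) * F i) q x)) := by
  have hcomp := fun n => act_C_mul_iter (M := L) hb hF x n
  constructor
  · rintro hw ⟨m, n, hmn, c, hc, h⟩
    obtain ⟨c₁, hc₁, h₁⟩ := hcomp n
    obtain ⟨c₂, hc₂, h₂⟩ := hcomp m
    rw [h₁, h₂, smul_smul] at h
    refine hw ⟨m, n, hmn, c₁⁻¹ * (c * c₂), mul_ne_zero (inv_ne_zero hc₁) (mul_ne_zero hc hc₂), ?_⟩
    rw [← smul_smul, ← h, smul_smul, inv_mul_cancel₀ hc₁, one_smul]
  · refine (hB.canH_tendsto hq hx).congr fun n => ?_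
    obtain ⟨c, hc, h⟩ := hcomp n
    rw [h, Height.logHeight_smul_eq_logHeight _ hc]

end Scale

end

end Pool.Agent.H627.LR
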