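import Mathlib
import Pool.Agent.H627.LP.Par

/-!
Choice of the parameters.
-/

set_option autoImplicit false

namespace Pool.Agent.H627.LR

open Pool.Agent.H627.LP (natlog_le)

noncomputable section

lemma clog_le {D : ℕ} (hD : 1 ≤ D) : (Nat.clog 2 D : ℝ) ≤ 1 + 2 * Real.log D := by
  have h1 : Nat.clog 2 D ≤ Nat.log 2 D + 1 :=
    Nat.clog_le_of_le_pow (Nat.lt_pow_succ_log_self (by norm_num) D).le
  have h2 : (Nat.clog 2 D : ℝ) ≤ Nat.log 2 D + 1 := by exact_mod_cast h1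
  have h3 := natlog_le hD
  linarith

/-- the choice of the parameters -/
theorem params {lp E : ℝ} (hlp : 0 < lp) (hE : 0 ≤ E) {B Q q : ℕ} (hB : 1 ≤ B) (hQ : 1 ≤ Q)
    (hq : 2 ≤ q) : ∃ C : ℝ, 0 < C ∧ ∀ (D₀ : ℕ), 1 ≤ D₀ → ∀ h : ℝ, 0 ≤ h →
      (∀ k a₀ : ℕ, 1 ≤ k → Q * (Nat.clog 2 D₀ + 1) ≤ a₀ →
        ∃ r D : ℕ, 1 ≤ D ∧ D ≤ D₀ ∧ k * D ≤ r ∧ r ≤ k * D₀ ∧ ∀ s : ℕ,
        lp / D * (s * (r / B - (Q : ℕ) * s)) ≤
          r * (r * ((q : ℝ) ^ (a₀ + k) * h) + E * (1 + Nat.log 2 r : ℕ) + Real.log r)) →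
      1 / (C * (D₀ : ℝ) ^ C) ≤ h := by
  have hB' : (1 : ℝ) ≤ B := by exact_mod_cast hB
  have hQ' : (1 : ℝ) ≤ Q := by exact_mod_cast hQ
  have hq' : (2 : ℝ) ≤ q := by exact_mod_cast hq
  have hlq : 0 < Real.log q := Real.log_pos (by linarith)
  obtain ⟨c₀, hc₀⟩ : ∃ t : ℝ, t = lp / (16 * Q * B ^ 2) := ⟨_, rfl⟩
  have hc₀pos : 0 < c₀ := by rw [hc₀]; positivity
  obtain ⟨y, hy⟩ : ∃ t : ℝ, t = 1 + (11 * E + 5) / c₀ + 4 * Q * B := ⟨_, rfl⟩
  have hy1 : 1 ≤ y := by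
    have h1 : 0 ≤ (11 * E + 5) / c₀ := by positivity
    have h2 : 0 ≤ 4 * (Q : ℝ) * B := by positivity
    linarith
  have hyc : 11 * E + 5 ≤ c₀ * y := by
    have h1 : c₀ * y = c₀ + (11 * E + 5) + c₀ * (4 * Q * B) := by
      rw [hy]
      field_simp
    have h2 : 0 ≤ c₀ * (4 * Q * B) := by positivity
    linarith
  have hyQ : 4 * Q * B ≤ y := by
    have h1 : 0 ≤ (11 * E + 5) / c₀ := by positivity
    linarith
  obtain ⟨A, hA⟩ : ∃ t : ℝ, t = y ^ 2 := ⟨_, rfl⟩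
  have hAy : y ≤ A := by
    rw [hA, sq]
    exact le_mul_of_one_le_right (by linarith) hy1
  have hA1 : 1 ≤ A := hy1.trans hAy
  obtain ⟨A', hA'⟩ : ∃ t : ℝ, t = 2 * Q + 2 * A := ⟨_, rfl⟩
  have hA'0 : 0 < A' := by rw [hA']; positivity
  obtain ⟨κ, hκ⟩ : ∃ t : ℝ, t = A' * Real.log q := ⟨_, rfl⟩
  have hκ0 : 0 < κ := by rw [hκ]; positivity
  refine ⟨max (Real.exp κ / c₀) (κ + 1), lt_max_of_lt_right (by linarith), ?_⟩
  intro D₀ hD₀ h hh0 hmain
  set C := max (Real.exp κ / c₀) (κ + 1) with hC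
  have hD₀' : (1 : ℝ) ≤ D₀ := by exact_mod_cast hD₀
  have hlD : 0 ≤ Real.log D₀ := Real.log_nonneg hD₀'
  obtain ⟨Λ, hΛ⟩ : ∃ t : ℝ, t = 1 + Real.log D₀ := ⟨_, rfl⟩
  have hΛ1 : 1 ≤ Λ := by linarith
  set k : ℕ := ⌈A * Λ⌉₊ with hk
  have hkl : A * Λ ≤ k := Nat.le_ceil _
  have hAΛ : A ≤ A * Λ := le_mul_of_one_le_right (by linarith) hΛ1
  have hku : (k : ℝ) ≤ 2 * (A * Λ) := by
    have h1 : (k : ℝ) < A * Λ + 1 := Nat.ceil_lt_add_one (by positivity)
    linarith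
  have hk1' : (1 : ℝ) ≤ k := hA1.trans (hAΛ.trans hkl)
  have hk1 : 1 ≤ k := by exact_mod_cast hk1'
  obtain ⟨r, D, hD, hDD₀, hkr, hrk, hs⟩ := hmain k (Q * (Nat.clog 2 D₀ + 1)) hk1 le_rfl
  set a₀ := Q * (Nat.clog 2 D₀ + 1) with ha₀
  have hD' : (1 : ℝ) ≤ D := by exact_mod_cast hD
  have hDpos : (0 : ℝ) < D := by linarith
  have hkr' : (k : ℝ) * D ≤ r := by exact_mod_cast hkr
  have hrk' : (r : ℝ) ≤ k * D₀ := by exact_mod_cast hrk
  have hkr1 : (k : ℝ) ≤ r := (le_mul_of_one_le_right (by linarith) hD').trans hkr'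
  have hr1' : (1 : ℝ) ≤ r := hk1'.trans hkr1
  have hr1 : 1 ≤ r := by exact_mod_cast hr1'
  have hrQB : 4 * (Q : ℝ) * B ≤ r := hyQ.trans (hAy.trans (hAΛ.trans (hkl.trans hkr1)))
  -- the parameter `s`
  set s : ℕ := r / (2 * Q * B) with hsdef
  have h2QB : (0 : ℝ) < 2 * Q * B := by positivity
  have hsu : (s : ℝ) * (2 * Q * B) ≤ r := by
    have h1 : r / (2 * Q * B) * (2 * Q * B) ≤ r := Nat.div_mul_le_self _ _
    exact_mod_cast h1
  have hsl : (r : ℝ) ≤ s * (4 * Q * B) := by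
    have h1 : r < (s + 1) * (2 * Q * B) := by
      rw [hsdef]
      have h3 := Nat.div_add_mod r (2 * Q * B)
      have h4 := Nat.mod_lt r (show 0 < 2 * Q * B by positivity)
      calc r = 2 * Q * B * (r / (2 * Q * B)) + r % (2 * Q * B) := h3.symm
        _ < 2 * Q * B * (r / (2 * Q * B)) + 2 * Q * B := by omega
        _ = _ := by ring
    have h2 : (r : ℝ) < (s + 1) * (2 * Q * B) := by exact_mod_cast h1
    have h3 : (s + 1) * (2 * (Q : ℝ) * B) = s * (2 * Q * B) + 2 * Q * B := by ring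
    have h4 : s * (4 * (Q : ℝ) * B) = 2 * (s * (2 * Q * B)) := by ring
    linarith
  have h1 := hs s
  -- lower bound of the left-hand side
  have hL : 2 * c₀ * (r : ℝ) ^ 2 / D ≤ lp / D * (s * (r / B - (Q : ℕ) * s)) := by
    have h2 : (r : ℝ) / (2 * B) ≤ r / B - (Q : ℕ) * s := by
      have h3 : (Q : ℝ) * s ≤ r / (2 * B) := by
        rw [le_div_iff₀ (by positivity)]
        calc (Q : ℝ) * s * (2 * B) = s * (2 * Q * B) := by ring
          _ ≤ r := hsu
      have h4 : (r : ℝ) / B = r / (2 * B) + r / (2 * B) := by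
        field_simp
        ring
      linarith
    have h3 : (r : ℝ) / (4 * Q * B) ≤ s := by
      rw [div_le_iff₀ (by positivity)]
      exact hsl
    calc 2 * c₀ * (r : ℝ) ^ 2 / D = lp / D * (r / (4 * Q * B) * (r / (2 * B))) := by
          rw [hc₀]
          field_simp
          ring
      _ ≤ lp / D * (s * (r / B - (Q : ℕ) * s)) := by gcongr
  -- upper bound of the error
  have hlogA : Real.log (2 * A) ≤ 1 + 2 * y := by
    have h2 : Real.log (2 * A) = Real.log 2 + 2 * Real.log y := by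
      rw [Real.log_mul (by norm_num) (by positivity), hA, Real.log_pow]
      norm_num
    have h3 : Real.log 2 ≤ 1 := by
      have := Real.log_two_lt_d9
      linarith
    have h4 : Real.log y ≤ y := by
      have := Real.log_le_sub_one_of_pos (show 0 < y by linarith)
      linarith
    linarith
  have hlogr : Real.log r ≤ (1 + 2 * y + 2) * Λ := by
    have h2 : Real.log r ≤ Real.log (2 * (A * Λ) * D₀) := by
      apply Real.log_le_log (by linarith)
      exact hrk'.trans (mul_le_mul_of_nonneg_right hku (by linarith))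
    have h3 : Real.log (2 * (A * Λ) * D₀) = Real.log (2 * A) + Real.log Λ + Real.log D₀ := by
      rw [Real.log_mul (by positivity) (by positivity), ← mul_assoc,
        Real.log_mul (by positivity) (by positivity)]
    have h4 : Real.log Λ ≤ Λ := by
      have := Real.log_le_sub_one_of_pos (show 0 < Λ by linarith)
      linarith
    have h5 : 1 + 2 * y ≤ (1 + 2 * y) * Λ := le_mul_of_one_le_right (by linarith) hΛ1
    have h6 : Real.log D₀ ≤ Λ := by linarith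
    have h7 : (1 + 2 * y + 2) * Λ = (1 + 2 * y) * Λ + Λ + Λ := by ring
    linarith
  have hlogr0 : 0 ≤ Real.log r := Real.log_nonneg hr1'
  have hR : E * (1 + Nat.log 2 r : ℕ) + Real.log r ≤ c₀ * k := by
    have h2 := natlog_le hr1
    have h3 : E * (1 + Nat.log 2 r : ℕ) ≤ E * (1 + 2 * Real.log r) := by
      apply mul_le_mul_of_nonneg_left _ hE
      push_cast
      linarith
    have h4 : E * (1 + 2 * Real.log r) + Real.log r ≤
        E * Λ + (2 * E + 1) * ((1 + 2 * y + 2) * Λ) := by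
      have h5 : E * 1 ≤ E * Λ := mul_le_mul_of_nonneg_left hΛ1 hE
      have h6 : (2 * E + 1) * Real.log r ≤ (2 * E + 1) * ((1 + 2 * y + 2) * Λ) :=
        mul_le_mul_of_nonneg_left hlogr (by linarith)
      have h7 : E * (1 + 2 * Real.log r) + Real.log r = E * 1 + (2 * E + 1) * Real.log r := by
        ring
      linarith
    have h5 : E * Λ + (2 * E + 1) * ((1 + 2 * y + 2) * Λ) ≤ ((11 * E + 5) * y) * Λ := by
      have h6 : E + (2 * E + 1) * (1 + 2 * y + 2) ≤ (11 * E + 5) * y := by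
        have h7 : 0 ≤ (7 * E + 3) * (y - 1) := by
          apply mul_nonneg
          · linarith
          · linarith
        have h8 : (11 * E + 5) * y - (E + (2 * E + 1) * (1 + 2 * y + 2)) =
            (7 * E + 3) * (y - 1) := by ring
        linarith
      calc E * Λ + (2 * E + 1) * ((1 + 2 * y + 2) * Λ) =
          (E + (2 * E + 1) * (1 + 2 * y + 2)) * Λ := by ring
        _ ≤ _ := mul_le_mul_of_nonneg_right h6 (by linarith)
    have h6 : ((11 * E + 5) * y) * Λ ≤ c₀ * k := by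
      calc ((11 * E + 5) * y) * Λ ≤ ((c₀ * y) * y) * Λ := by gcongr
        _ = c₀ * (A * Λ) := by rw [hA]; ring
        _ ≤ c₀ * k := mul_le_mul_of_nonneg_left hkl hc₀pos.le
    linarith
  have hRD : c₀ * k ≤ c₀ * r / D := by
    rw [le_div_iff₀ hDpos]
    calc c₀ * k * D = c₀ * (k * D) := by ring
      _ ≤ c₀ * r := mul_le_mul_of_nonneg_left hkr' hc₀pos.le
  set X : ℝ := (q : ℝ) ^ (a₀ + k) * h with hX
  have h2 : 2 * c₀ * (r : ℝ) / D ≤ r * X + c₀ * r / D := by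
    have h3 := hL.trans h1
    have h4 : 2 * c₀ * (r : ℝ) ^ 2 / D = r * (2 * c₀ * r / D) := by ring
    rw [h4] at h3
    have h5 := le_of_mul_le_mul_left h3 (show (0 : ℝ) < r by linarith)
    linarith
  have h3 : c₀ / D ≤ X := by
    have h4 : 2 * c₀ * (r : ℝ) / D = r * (c₀ / D) + c₀ * r / D := by ring
    rw [h4] at h2
    exact le_of_mul_le_mul_left (show (r : ℝ) * (c₀ / D) ≤ r * X by linarith) (by linarith)
  -- conclusion
  have hak : ((a₀ + k : ℕ) : ℝ) ≤ A' * Λ := by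
    have h4 := clog_le hD₀
    push_cast
    rw [ha₀]
    push_cast
    have h5 : (Q : ℝ) * (Nat.clog 2 D₀ + 1) ≤ Q * (2 * Λ) := by
      apply mul_le_mul_of_nonneg_left _ (by linarith)
      linarith
    have h6 : A' * Λ = Q * (2 * Λ) + 2 * (A * Λ) := by
      rw [hA']
      ring
    linarith
  have hqe : (q : ℝ) ^ (a₀ + k) ≤ Real.exp κ * (D₀ : ℝ) ^ κ := by
    have h4 : (q : ℝ) ^ (a₀ + k) = Real.exp ((a₀ + k : ℕ) * Real.log q) := by
      rw [Real.exp_nat_mul, Real.exp_log (by linarith)]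
    have h5 : Real.exp κ * (D₀ : ℝ) ^ κ = Real.exp (κ * Λ) := by
      rw [Real.rpow_def_of_pos (by linarith), ← Real.exp_add]
      congr 1
      rw [hΛ]
      ring
    rw [h4, h5, Real.exp_le_exp]
    calc ((a₀ + k : ℕ) : ℝ) * Real.log q ≤ (A' * Λ) * Real.log q :=
          mul_le_mul_of_nonneg_right hak hlq.le
      _ = κ * Λ := by rw [hκ]; ring
  have h4 : c₀ / D₀ ≤ (Real.exp κ * (D₀ : ℝ) ^ κ) * h := by
    calc c₀ / D₀ ≤ c₀ / D := by
          apply div_le_div_of_nonneg_left hc₀pos.le hDpos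
          exact_mod_cast hDD₀
      _ ≤ X := h3
      _ ≤ _ := mul_le_mul_of_nonneg_right hqe hh0
  have hCpos : 0 < C := lt_max_of_lt_right (by linarith)
  have hDκ : 0 < (D₀ : ℝ) ^ κ := Real.rpow_pos_of_pos (by linarith) _
  have hDC : (D₀ : ℝ) ^ κ * D₀ ≤ (D₀ : ℝ) ^ C := by
    have h5 : (D₀ : ℝ) ^ κ * D₀ = (D₀ : ℝ) ^ (κ + 1) := by
      rw [Real.rpow_add (by linarith), Real.rpow_one]
    rw [h5]
    exact Real.rpow_le_rpow_of_exponent_le hD₀' (le_max_right _ _)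
  rw [div_le_iff₀ (by positivity)]
  have h5 : Real.exp κ / c₀ ≤ C := le_max_left _ _
  rw [div_le_iff₀ (by linarith)] at h4
  calc (1 : ℝ) = c₀ / c₀ := (div_self hc₀pos.ne').symm
    _ ≤ (Real.exp κ * (D₀ : ℝ) ^ κ * h * D₀) / c₀ := by gcongr
    _ = h * ((Real.exp κ / c₀) * ((D₀ : ℝ) ^ κ * D₀)) := by ring
    _ ≤ h * (C * (D₀ : ℝ) ^ C) := by gcongr

end

end Pool.Agent.H627.LR
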