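import Mathlib
import Pool.Agent.H627.LR.Cls
import Pool.Agent.H627.LP.Orb

/-!
The inequality for several consecutive iterates.
-/

set_option autoImplicit false
set_option linter.unusedSectionVars false

namespace Pool.Agent.H627.LR

open NumberField Module MvPolynomial
open Pool.Agent.W238.Leh
open Pool.Agent.H627.LP hiding det_ineq det_ineq' local_gain
open Pool.Agent.H420R3 (mi nv TP ew TP_nonempty mem_TP lP lP_pos sum_ew ew_pos)
open scoped Pointwise

noncomputable section

variable {K : Type} [Field K] [NumberField K] {M : Type} [Field M] [NumberField M] [Algebra K M]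
  [IsGalois K M]
variable {F : Fin (1 + 1) → MvPolynomial (Fin (1 + 1)) K} {q : ℕ}

lemma pt_mul (z : Fin (1 + 1) → M) (n : ℕ) (h σ : Gal(M/K)) :
    pt F z n (h * σ) = fun i => h (pt F z n σ i) := by
  unfold pt
  rw [← act_gal_iter]
  rfl

/-- the number of conjugates and the stabilizer in the inertia group -/
lemma card_I_le (v : FinitePlace M) (z : Fin (1 + 1) → M) (n : ℕ) (σ : Gal(M/K))
    (hne : pt F z n σ ≠ 0) :
    Nat.card ((mi v).inertia Gal(M/K)) ≤
      Fintype.card (QQ F z n) * Nat.card (St K v (pt F z n σ)) := by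
  classical
  set I := (mi v).inertia Gal(M/K) with hI
  let := Fintype.ofFinite I
  set f : I → QQ F z n := fun h => Quotient.mk (ptS F z n) ((h : Gal(M/K)) * σ) with hf
  have h1 : (Finset.univ : Finset I).card ≤
      Nat.card (St K v (pt F z n σ)) * (Finset.univ.image f).card := by
    refine Finset.card_le_mul_card_image _ _ fun b hb => ?_
    obtain ⟨h₀, _, rfl⟩ := Finset.mem_image.mp hb
    rw [← Fintype.card_coe, ← Nat.card_eq_fintype_card]
    refine Nat.card_le_card_of_injective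
      (fun g : (Finset.univ.filter fun g => f g = f h₀) =>
        (⟨((h₀ : I) : Gal(M/K))⁻¹ * ((g : I) : Gal(M/K)), ?_⟩ : St K v (pt F z n σ))) ?_
    · rw [mem_St hne]
      refine ⟨I.mul_mem (I.inv_mem (h₀ : I).2) (g : I).2, ?_⟩
      have h2 : f g = f h₀ := (Finset.mem_filter.mp g.2).2
      obtain ⟨c, hc, h3⟩ := Quotient.exact h2
      rw [pt_mul, pt_mul] at h3
      have h4 : (fun i => (((h₀ : I) : Gal(M/K))⁻¹ * ((g : I) : Gal(M/K))) (pt F z n σ i)) =
          (((h₀ : I) : Gal(M/K))⁻¹ c) • pt F z n σ := by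
        funext i
        have h5 := congrFun h3 i
        simp only [Pi.smul_apply, smul_eq_mul] at h5 ⊢
        rw [AlgEquiv.mul_apply, h5, map_mul, ← AlgEquiv.mul_apply, inv_mul_cancel]
        rfl
      rw [h4]
      have h6 := wd_smul (((h₀ : I) : Gal(M/K))⁻¹ c) 1 (pt F z n σ) (pt F z n σ)
      rw [one_smul] at h6
      rw [h6]
      unfold wd
      ring
    · intro a b hab
      apply Subtype.ext
      apply Subtype.ext
      have := congrArg Subtype.val hab
      exact mul_left_cancel this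
  have h2 : (Finset.univ.image f).card ≤ Fintype.card (QQ F z n) := Finset.card_le_univ _
  rw [Nat.card_eq_fintype_card, ← Finset.card_univ]
  calc _ ≤ _ := h1
    _ ≤ Nat.card (St K v (pt F z n σ)) * Fintype.card (QQ F z n) := Nat.mul_le_mul_left _ h2
    _ = _ := mul_comm _ _

variable {P : Ideal (𝓞 K)} [hP : P.IsMaximal]
variable {L : Type} [Field L] [NumberField L] [Algebra K L] [Algebra L M] [IsScalarTower K L M]

lemma pt_L (x : Fin (1 + 1) → L) (n : ℕ) (σ : Gal(M/K)) :
    pt F (fun i => algebraMap L M (x i)) n σ =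
      fun i => σ (algebraMap L M ((act F)^[n] x i)) := by
  unfold pt
  rw [act_gal_iter, act_iter_base]

/-- points with good residue fields are close to inertia points at high levels -/
lemma good_cc (hP0 : P ≠ ⊥) {v : FinitePlace M} (hv : v ∈ TP M P) (hR : GR v F q)
    (hF : ∀ i, (F i).IsHomogeneous q) {x : Fin (1 + 1) → L}
    (hz : ∀ n (σ : Gal(M/K)), pt F (fun i => algebraMap L M (x i)) n σ ≠ 0)
    {σ : Gal(M/K)} {Q : ℕ} (hQ : 1 < Q) (hG : GA L Q v σ) {T : ℕ} {j : ℕ}
    (hj : Q ^ 2 * (Nat.clog 2 (finrank K L) + 1) ≤ j) (hjT : j ≤ T) :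
    Cc K v (1 / (Fintype.card (QQ F (fun i => algebraMap L M (x i)) T) : ℝ))
      (pt F (fun i => algebraMap L M (x i)) j σ) := by
  classical
  set z : Fin (1 + 1) → M := fun i => algebraMap L M (x i) with hzdef
  obtain ⟨S, hS, hS'⟩ := exists_set v Q hQ
  have hu0 : pt F z 0 σ ≠ 0 := hz 0 σ
  have hper : ∃ i i' : ℕ, i < i' ∧ i' ≤ Q ^ 2 ∧
      dl v ((act F)^[i] (pt F z 0 σ)) ((act F)^[i'] (pt F z 0 σ)) < 1 := by
    have hcard : (Fintype.piFinset fun _ : Fin (1 + 1) => S).card <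
        (Finset.range (Q ^ 2 + 1)).card := by
      rw [Fintype.card_piFinset_const, Finset.card_range]
      exact Nat.lt_succ_of_le (Nat.pow_le_pow_left hS 2)
    have hmaps : Set.MapsTo (fun n => cls v (pt F z n σ)) (Finset.range (Q ^ 2 + 1) : Set ℕ)
        (Fintype.piFinset fun _ : Fin (1 + 1) => S : Set (Fin (1 + 1) → 𝓞 M ⧸ mi v)) := by
      intro n _
      exact cls_mem hG hS' (hz n σ) (pt_L x n σ)
    obtain ⟨i, hi, i', hi', hii, hcl⟩ :=
      Finset.exists_ne_map_eq_of_card_lt_of_maps_to hcard hmaps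
    have hptn : ∀ n, (act F)^[n] (pt F z 0 σ) = pt F z n σ := fun n => rfl
    rcases lt_or_gt_of_ne hii with h | h
    · refine ⟨i, i', h, ?_, ?_⟩
      · have := Finset.mem_range.mp hi'
        omega
      · rw [hptn, hptn]
        exact dl_of_cls v (hz i σ) (hz i' σ) hcl
    · refine ⟨i', i, h, ?_, ?_⟩
      · have := Finset.mem_range.mp hi
        omega
      · rw [hptn, hptn]
        exact dl_of_cls v (hz i' σ) (hz i σ) hcl.symm
  have hn₀ : Nat.card ((mi v).inertia Gal(M/K)) ≤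
      2 ^ Nat.clog 2 (finrank K L) * Nat.card (St K v (pt F z 0 σ)) := by
    refine (card_I_le v z 0 σ hu0).trans (Nat.mul_le_mul_right _ ?_)
    exact (QQ_le x 0).trans (Nat.le_pow_clog (by norm_num) _)
  have hD := card_I_le v z T σ (hz T σ)
  exact levels hP0 hv hR hF hu0 hper hn₀ hD hj hjT

/-- **the window inequality** -/
theorem window (hP0 : P ≠ ⊥) {A : ℝ} {a c : ℕ} (hB : Bds F q A a) (hq : 2 ≤ q)
    (hF : ∀ i, (F i).IsHomogeneous q)
    (hc : ∀ m, c + q ≤ m → ∀ p : MvPolynomial (Fin (1 + 1)) K, p.IsHomogeneous m →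
      p ∈ Ideal.span (Set.range F))
    (hR : ∀ v ∈ TP M P, GR v F q) {x : Fin (1 + 1) → L} (hx : x ≠ 0) (hw : Wnd F x)
    {m : ℕ} (T : Finset (Ideal (𝓞 L)))
    (hT : ∀ 𝔓 ∈ T, 𝔓.IsPrime ∧ 𝔓.under (𝓞 K) = P ∧ 𝔓.inertiaDeg (𝓞 K) ≤ m) {B : ℕ}
    (hTB : finrank K L ≤ B * ∑ 𝔓 ∈ T, 𝔓.ramificationIdx (𝓞 K) * 𝔓.inertiaDeg (𝓞 K))
    {k a₀ : ℕ} (hk : 1 ≤ k)
    (ha₀ : (P.absNorm ^ m.factorial) ^ 2 * (Nat.clog 2 (finrank K L) + 1) ≤ a₀) :
    ∃ r D : ℕ, 1 ≤ D ∧ D ≤ finrank K L ∧ k * D ≤ r ∧ r ≤ k * finrank K L ∧ ∀ s : ℕ,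
      lP P / D * (s * (r / B - ((P.absNorm ^ m.factorial) ^ 2 : ℕ) * s)) ≤
        r * (r * ((q : ℝ) ^ (a₀ + k) * canH F q x) +
          hC A a * ((c + q : ℕ) * (1 + Nat.log 2 r : ℕ)) + Real.log r) := by
  classical
  set Q := P.absNorm ^ m.factorial with hQdef
  have hPn : 1 < P.absNorm := by
    have h1 := log_absNorm_pos (K := K) hP0
    by_contra h
    push Not at h
    interval_cases hh : P.absNorm <;> simp at h1
  have hQ : 1 < Q := by
    rw [hQdef]
    exact Nat.one_lt_pow (Nat.factorial_pos m).ne' hPn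
  have hlP := lP_pos hP0
  have hq' : (2 : ℝ) ≤ q := by exact_mod_cast hq
  set z : Fin (1 + 1) → M := fun i => algebraMap L M (x i) with hz
  have hz0 : z ≠ 0 := by
    intro h0
    apply hx
    funext i
    have := congrFun h0 i
    simp only [hz, Pi.zero_apply, FaithfulSMul.algebraMap_eq_zero_iff] at this
    exact this
  have hzσ : ∀ σ : Gal(M/K), (fun i => σ (z i)) ≠ 0 := by
    intro σ h0
    apply hz0
    funext i
    have := congrFun h0 i
    simpa using this
  have hpt0 : ∀ n (σ : Gal(M/K)), pt F z n σ ≠ 0 := fun n σ => hB.iter_ne_zero (hzσ σ) n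
  have hwz : Wnd F z := hw.base hB hx
  have hcan0 : 0 ≤ canH F q x := hB.canH_nonneg hq hx
  set ι : Type := Σ j : Fin k, QQ F z (a₀ + j) with hι
  set p : ι → Fin (1 + 1) → M := fun i => pt F z (a₀ + i.1) i.2.out with hp
  have hp0 : ∀ i, p i ≠ 0 := fun i => hpt0 _ _
  have hne : ∀ i i' : ι, i ≠ i' → ∀ b : M, p i ≠ b • p i' := by
    rintro ⟨j, y⟩ ⟨j', y'⟩ hii b hb
    have hb0 : b ≠ 0 := by
      rintro rfl
      rw [zero_smul] at hb
      exact hp0 _ hb
    rcases lt_trichotomy j j' with hj | hj | hj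
    · have h1 : p ⟨j', y'⟩ = b⁻¹ • p ⟨j, y⟩ := by
        rw [hb, smul_smul, inv_mul_cancel₀ hb0, one_smul]
      exact pt_ne hF hwz (Nat.add_lt_add_left (Fin.lt_def.mp hj) a₀) _ _
        (inv_ne_zero hb0) h1
    · subst hj
      apply hii
      have h1 : y = y' := by
        rw [← Quotient.out_equiv_out]
        exact ⟨b, hb0, hb⟩
      rw [h1]
    · exact pt_ne hF hwz (Nat.add_lt_add_left (Fin.lt_def.mp hj) a₀) _ _ hb0 hb
  -- cardinalities
  set D := Fintype.card (QQ F z (a₀ + (k - 1))) with hD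
  set r := Fintype.card ι with hr
  have hrsum : r = ∑ j : Fin k, Fintype.card (QQ F z (a₀ + j)) := by
    rw [hr]
    exact Fintype.card_sigma
  have hkt : k * D ≤ r := by
    rw [hrsum]
    calc k * D = ∑ _j : Fin k, D := by simp
      _ ≤ _ := by
        refine Finset.sum_le_sum fun j _ => QQ_anti hF z ?_
        have := j.2
        omega
  have hrD : r ≤ k * finrank K L := by
    rw [hrsum]
    calc ∑ j : Fin k, Fintype.card (QQ F z (a₀ + j)) ≤ ∑ _j : Fin k, finrank K L :=
          Finset.sum_le_sum fun j _ => QQ_le x _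
      _ = _ := by simp
  have hD1 : 1 ≤ D := by
    have : Nonempty (QQ F z (a₀ + (k - 1))) := ⟨Quotient.mk _ 1⟩
    exact Fintype.card_pos
  have hr1 : 1 ≤ r := le_trans (Nat.mul_pos hk hD1) hkt
  have hDpos : (0 : ℝ) < D := by exact_mod_cast hD1
  refine ⟨r, D, hD1, QQ_le x _, hkt, hrD, ?_⟩
  intro s
  -- the good places
  choose G hG1 hG2 hG3 using fun σ : Gal(M/K) => sum_good (M := M) hP0 T
    (fun 𝔓 h𝔓 => ⟨(hT 𝔓 h𝔓).1, (hT 𝔓 h𝔓).2.1⟩) hTB σ
  have hGA : ∀ σ, ∀ v ∈ G σ, GA L Q v σ := by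
    intro σ v hv
    obtain ⟨w, hw, h1, h2⟩ := hG2 σ v hv
    exact ga_of hP0 hw h1 (hT _ h2).2.2
  set E : FinitePlace M → Finset ι := fun v =>
    Finset.univ.filter fun i => v ∉ G i.2.out with hE
  set g : FinitePlace M → ℝ := fun v => ew K v * (1 / (D : ℝ)) with hg
  have hgpos : ∀ v ∈ TP M P, 0 < g v := fun v _ => mul_pos (ew_pos v) (by positivity)
  have hnear : ∀ v ∈ TP M P, ∃ cc : ι → ι, ((Finset.univ \ E v).image cc).card ≤ Q ^ 2 ∧
      ∀ i, i ∉ E v → Near v (Real.exp (-g v)) (p i) (p (cc i)) := by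
    intro v hv
    obtain ⟨S, hS, hS'⟩ := exists_set v Q hQ
    have hmemE : ∀ i, i ∉ E v → v ∈ G i.2.out := by
      intro i hi
      rw [hE, Finset.mem_filter] at hi
      push Not at hi
      exact hi (Finset.mem_univ i)
    set κ : ι → Fin (1 + 1) → 𝓞 M ⧸ mi v := fun i => cls v (p i) with hκ
    have hκS : ∀ i, i ∉ E v → κ i ∈ Fintype.piFinset fun _ : Fin (1 + 1) => S := by
      intro i hi
      exact cls_mem (hGA _ v (hmemE i hi)) hS' (hp0 i) (pt_L x _ _)
    have hno : Nonempty ι := Fintype.card_pos_iff.mp hr1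
    set rep : (Fin (1 + 1) → 𝓞 M ⧸ mi v) → ι := fun b =>
      if h : ∃ i, i ∉ E v ∧ κ i = b then h.choose else Classical.choice hno with hrep
    have hrep' : ∀ i, i ∉ E v → rep (κ i) ∉ E v ∧ κ (rep (κ i)) = κ i := by
      intro i hi
      have hex : ∃ i', i' ∉ E v ∧ κ i' = κ i := ⟨i, hi, rfl⟩
      simp only [hrep]
      rw [dif_pos hex]
      exact hex.choose_spec
    refine ⟨fun i => rep (κ i), ?_, ?_⟩
    · have h1 : (Finset.univ \ E v).image (fun i => rep (κ i)) ⊆
          (Fintype.piFinset fun _ : Fin (1 + 1) => S).image rep := by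
        intro b hb
        obtain ⟨i, hi, rfl⟩ := Finset.mem_image.mp hb
        exact Finset.mem_image_of_mem _ (hκS i (Finset.mem_sdiff.mp hi).2)
      refine (Finset.card_le_card h1).trans (Finset.card_image_le.trans ?_)
      rw [Fintype.card_piFinset_const]
      exact Nat.pow_le_pow_left hS 2
    · intro i hi
      obtain ⟨h1, h2⟩ := hrep' i hi
      have hd := dl_of_cls v (hp0 i) (hp0 (rep (κ i))) h2.symm
      have hccp : ∀ i', i' ∉ E v → Cc K v (1 / (D : ℝ)) (p i') := by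
        intro i' hi'
        refine good_cc hP0 hv (hR v hv) hF hpt0 hQ (hGA _ v (hmemE i' hi')) (j := a₀ + i'.1)
          (ha₀.trans (Nat.le_add_right _ _)) ?_
        have := i'.1.2
        omega
      have h3 := (hccp i hi).dist hP0 hv (l := 1 / (D : ℝ)) (by positivity) (by
        rw [div_le_one hDpos]
        exact_mod_cast hD1) (hp0 i) (hp0 _) (hccp _ h1) hd
      exact near_of_dl (hp0 i) (hp0 _) h3
  -- heights
  have hHp : ∀ i, canH F q (p i) ≤ (q : ℝ) ^ (a₀ + k) * canH F q x := by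
    rintro ⟨j, y⟩
    change canH F q ((act F)^[a₀ + j] fun i => y.out (z i)) ≤ _
    rw [hB.canH_iter hq (hzσ _), canH_gal, hz, canH_base]
    refine mul_le_mul_of_nonneg_right ?_ hcan0
    apply pow_le_pow_right₀ (by linarith)
    have := j.2
    omega
  have hmain := det_ineq' hB hq hF hc hp0 hne hr1 (TP M P) hR g hgpos E hnear s hHp
  have hDM := finrank_pos' (L := M)
  have hDK := finrank_pos' (L := K)
  -- the sum of the weights
  have hΩ : ∑ v ∈ TP M P, ew K v = finrank ℚ M * lP P := by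
    rw [sum_ew hP0]
    have hdeg : (finrank ℚ M : ℝ) = finrank ℚ K * finrank K M := by
      exact_mod_cast (finrank_mul_finrank ℚ K M).symm
    unfold lP
    rw [hdeg]
    field_simp
  have hBpos : (0 : ℝ) < B := by
    have h1 : 0 < finrank K L := finrank_pos
    rcases Nat.eq_zero_or_pos B with h0 | h0
    · rw [h0, zero_mul] at hTB
      omega
    · exact_mod_cast h0
  have hgood : (r : ℝ) * (finrank ℚ M * lP P) / (B * D) ≤
      ∑ v ∈ TP M P, g v * ((r : ℝ) - (E v).card) := by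
    have h1 : ∀ v ∈ TP M P, g v * ((r : ℝ) - (E v).card) =
        ∑ i : ι, if v ∈ G i.2.out then g v else 0 := by
      intro v _
      have h2 : (r : ℝ) - (E v).card = ∑ i : ι, if v ∈ G i.2.out then (1 : ℝ) else 0 := by
        have h3 : (r : ℝ) = ∑ i : ι, (1 : ℝ) := by
          rw [Finset.sum_const, Finset.card_univ, nsmul_eq_mul, mul_one]
        have h4 : ((E v).card : ℝ) = ∑ i : ι, if v ∉ G i.2.out then (1 : ℝ) else 0 := by
          rw [hE, Finset.card_filter]
          push_cast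
          rfl
        rw [h3, h4, ← Finset.sum_sub_distrib]
        refine Finset.sum_congr rfl fun i _ => ?_
        by_cases h : v ∈ G i.2.out
        · simp [h]
        · simp [h]
      rw [h2, Finset.mul_sum]
      refine Finset.sum_congr rfl fun i _ => ?_
      split_ifs <;> simp
    rw [Finset.sum_congr rfl h1, Finset.sum_comm]
    have h2 : ∀ i : ι, finrank ℚ M * lP P / (B * D) ≤
        ∑ v ∈ TP M P, if v ∈ G i.2.out then g v else 0 := by
      intro i
      rw [← Finset.sum_filter]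
      have h3 : (TP M P).filter (fun v => v ∈ G i.2.out) = G i.2.out := by
        ext v
        rw [Finset.mem_filter]
        exact ⟨fun h => h.2, fun h => ⟨hG1 _ h, h⟩⟩
      rw [h3, ← hΩ]
      have h4 := hG3 i.2.out
      simp only [hg]
      rw [← Finset.sum_mul, div_le_iff₀ (by positivity)]
      calc ∑ v ∈ TP M P, ew K v ≤ B * ∑ v ∈ G i.2.out, ew K v := h4
        _ = _ := by
          field_simp
    calc (r : ℝ) * (finrank ℚ M * lP P) / (B * D) =
        ∑ i : ι, finrank ℚ M * lP P / (B * D) := by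
          rw [Finset.sum_const, Finset.card_univ, nsmul_eq_mul, ← hr]
          ring
      _ ≤ _ := Finset.sum_le_sum fun i _ => h2 i
  have hlow : finrank ℚ M * (lP P / D * (s * (r / B - (Q ^ 2 : ℕ) * s))) ≤
      ∑ v ∈ TP M P, g v * (s * (r - ((E v).card + Q ^ 2 * s ^ 1) : ℕ)) := by
    have h1 : ∀ v ∈ TP M P, s * (g v * ((r : ℝ) - (E v).card)) - g v * ((Q ^ 2 : ℕ) * s ^ 2) ≤
        g v * (s * (r - ((E v).card + Q ^ 2 * s ^ 1) : ℕ)) := by
      intro v hv
      have h2 : (r : ℝ) - ((E v).card + (Q ^ 2 : ℕ) * s) ≤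
          ((r - ((E v).card + Q ^ 2 * s ^ 1) : ℕ) : ℝ) := by
        have h3 : r ≤ (r - ((E v).card + Q ^ 2 * s ^ 1)) + ((E v).card + Q ^ 2 * s ^ 1) := by
          omega
        have h4 : (r : ℝ) ≤ ((r - ((E v).card + Q ^ 2 * s ^ 1) : ℕ) : ℝ) +
            ((E v).card + (Q ^ 2 : ℕ) * s) := by
          have h5 : (r : ℝ) ≤ (((r - ((E v).card + Q ^ 2 * s ^ 1)) +
            ((E v).card + Q ^ 2 * s ^ 1) : ℕ) : ℝ) := by exact_mod_cast h3
          refine h5.trans (le_of_eq ?_)
          push_cast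
          ring
        linarith
      have h5 := (hgpos v hv).le
      have h6 : (0 : ℝ) ≤ s := Nat.cast_nonneg s
      calc s * (g v * ((r : ℝ) - (E v).card)) - g v * ((Q ^ 2 : ℕ) * s ^ 2) =
          g v * (s * ((r : ℝ) - ((E v).card + (Q ^ 2 : ℕ) * s))) := by ring
        _ ≤ _ := by gcongr
    refine le_trans ?_ (Finset.sum_le_sum h1)
    rw [Finset.sum_sub_distrib, ← Finset.mul_sum, ← Finset.sum_mul]
    have h2 : ∑ v ∈ TP M P, g v = finrank ℚ M * lP P / D := by
      simp only [hg]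
      rw [← Finset.sum_mul, hΩ]
      ring
    rw [h2]
    have h3 : (s : ℝ) * ((r : ℝ) * (finrank ℚ M * lP P) / (B * D)) ≤
        s * ∑ v ∈ TP M P, g v * ((r : ℝ) - (E v).card) :=
      mul_le_mul_of_nonneg_left hgood (Nat.cast_nonneg s)
    refine le_trans (le_of_eq ?_) (sub_le_sub_right h3 _)
    field_simp
  have hfin := hlow.trans hmain
  exact le_of_mul_le_mul_left hfin hDM

end

end Pool.Agent.H627.LR
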