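import Mathlib
import Pool.Agent.H627.LR.Win
import Pool.Agent.H627.LR.Prm
import Pool.Agent.H627.LR.Gd
import Pool.Agent.H420R3.Main

/-!
The polynomial lower bound for rational maps with good reduction.
-/

set_option autoImplicit false
set_option linter.unusedSectionVars false

namespace Pool.Agent.H627.LR

open NumberField Module MvPolynomial Filter Topology
open Pool.Agent.W238.Leh
open Pool.Agent.H627.LP hiding det_ineq det_ineq' local_gain
open Pool.Agent.H420R3 (mi nv TP ew TP_nonempty mem_TP lP lP_pos sum_ew ew_pos NC)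
open scoped Pointwise

noncomputable section

variable {K : Type} [Field K] [NumberField K]

/-- **the lower bound** -/
theorem bounded {d : ℕ} (hd : 2 ≤ d) (F : Fin (1 + 1) → MvPolynomial (Fin (1 + 1)) K)
    (hF : ∀ i, (F i).IsHomogeneous d) (v : FinitePlace K) (hred : GoodRed v F) (m B : ℕ) :
    ∃ C : ℝ, 0 < C ∧ ∀ (L : Type) [Field L] [NumberField L] [Algebra K L]
      (T : Finset (Ideal (𝓞 L))),
      (∀ 𝔓 ∈ T, 𝔓.IsPrime ∧ 𝔓.under (𝓞 K) = mi v ∧ 𝔓.inertiaDeg (𝓞 K) ≤ m) →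
      finrank K L ≤ B * ∑ 𝔓 ∈ T, 𝔓.ramificationIdx (𝓞 K) * 𝔓.inertiaDeg (𝓞 K) →
      ∀ x : Fin (1 + 1) → L, x ≠ 0 → Wnd F x →
      ∃ h : ℝ, Tendsto (fun n : ℕ => Height.logHeight ((act F)^[n] x) /
          ((finrank ℚ L : ℝ) * (d : ℝ) ^ n)) atTop (𝓝 h) ∧
        1 / (C * (finrank K L : ℝ) ^ C) ≤ h := by
  rcases Nat.eq_zero_or_pos B with hB0 | hB0
  · refine ⟨1, one_pos, ?_⟩
    intro L _ _ _ T hT hTB
    rw [hB0, zero_mul] at hTB
    have : 0 < finrank K L := finrank_pos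
    omega
  obtain ⟨b, hb, hG⟩ := hred.exists_model hF
  have hP0 := H420R3.mi_ne_bot v
  set H : Fin (1 + 1) → MvPolynomial (Fin (1 + 1)) K := fun i => C (b : K) * F i with hH
  have hmor := fun z => hG.mor z
  obtain ⟨A, a, hBd⟩ := bds_of_mor (by omega) hG.hom (fun i s => by
    obtain ⟨c, hc⟩ := hG.int i s
    rw [hc]
    exact RingOfIntegers.isIntegral_coe c) hmor
  obtain ⟨c, hc⟩ := exists_mem_span hmor
  have hlP := lP_pos (P := mi v) hP0
  have hPn : 0 < (mi v).absNorm := by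
    rcases Nat.eq_zero_or_pos (mi v).absNorm with h0 | h0
    · exact absurd (Ideal.absNorm_eq_zero_iff.mp h0) hP0
    · exact h0
  set Q := ((mi v).absNorm ^ m.factorial) ^ 2 with hQ
  have hQ1 : 1 ≤ Q := Nat.one_le_pow _ _ (Nat.pow_pos hPn)
  have hE : 0 ≤ hC A a * ((c + d : ℕ) : ℝ) := mul_nonneg hBd.hC_nonneg (Nat.cast_nonneg _)
  obtain ⟨C₁, hC₁, hpar⟩ := params hlP hE hB0 hQ1 hd
  refine ⟨C₁, hC₁, ?_⟩
  intro L _ _ _ T hT hTB x hx hw
  obtain ⟨hw', hlim⟩ := transfer_scale hb hF hd hBd hx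
  refine ⟨_, hlim, ?_⟩
  refine hpar (finrank K L) finrank_pos _ (hBd.canH_nonneg hd hx) ?_
  intro k a₀ hk ha₀
  obtain ⟨r, D, h1, h2, h3, h4, h5⟩ := window (M := NC K L) (c := c) hP0 hBd hd hG.hom
    (fun m hm p hp => hc m (by omega) p hp) (fun w hw => hG.gr hP0 (by omega) hw) hx (hw' hw) T
    hT hTB hk ha₀
  refine ⟨r, D, h1, h2, h3, h4, fun s => (h5 s).trans (le_of_eq ?_)⟩
  ring

end

end Pool.Agent.H627.LR
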